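import Pool.Agent.Helper89.KakGeo
import Pool.Agent.Helper8.Kak.Move

/-!
# Collinear points: a form at an unknown height of a known line through two known points
-/

set_option autoImplicit false

namespace Pool.Agent.Helper90.Kak

open Finset Pool.Agent.Helper8.Kak Pool.Agent.Helper89.KakGeo

section

variable {Ω : Type} [Fintype Ω] {p : Ω → ℝ}

/-- product of heavy tailed weights -/
theorem sum_heavy_box {m : ℕ} (c : Fin m → ℤ) (F : Finset (Fin m → ℤ)) :
    ∑ a ∈ F, ∏ i, (3 * (1 + |((a i - c i : ℤ) : ℝ)|) ^ 2)⁻¹ ≤ 1 := by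
  classical
  have hpos : ∀ z : ℤ, 0 ≤ (3 * (1 + |(z : ℝ)|) ^ 2)⁻¹ := fun z => by positivity
  set I : Fin m → Finset ℤ := fun i => F.image (fun a => a i) with hI
  have h1 : F ⊆ Fintype.piFinset I := by
    intro a ha
    rw [Fintype.mem_piFinset]
    intro i
    exact mem_image_of_mem _ ha
  refine (Finset.sum_le_sum_of_subset_of_nonneg h1 fun a _ _ =>
    Finset.prod_nonneg fun i _ => hpos _).trans ?_
  rw [← Finset.prod_univ_sum I (fun i z => (3 * (1 + |((z - c i : ℤ) : ℝ)|) ^ 2)⁻¹)]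
  refine Finset.prod_le_one (fun i _ => Finset.sum_nonneg fun z _ => hpos _) fun i _ => ?_
  have h2 := sum_heavy_weight (M := 1) le_rfl ((I i).image (fun z => z - c i))
  rw [Finset.sum_image (fun a _ b _ h => by simpa using h)] at h2
  refine le_trans (le_of_eq ?_) h2
  refine Finset.sum_congr rfl fun z _ => ?_
  simp

/-- conditional entropy of an integer vector near a known vector; the distance need not be known -/
theorem CE_heavy {m : ℕ} (hp : IsProb p) (r : Setoid Ω) (X : Ω → Fin m → ℤ) (c : Ω → Fin m → ℝ)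
    (D : Ω → ℝ) (hD : ∀ ω, 1 ≤ D ω)
    (hm : ∀ ω ω', 0 < p ω → 0 < p ω' → r ω ω' → c ω = c ω')
    (hX : ∀ ω, 0 < p ω → ∀ i, |(X ω i : ℝ) - c ω i| ≤ D ω) :
    CE p (Setoid.ker X) r ≤ m * (2 * Ex p (fun ω => Real.log (D ω)) + Real.log 27) := by
  classical
  have h := gibbs hp r X
    (fun ω a => ∏ i, (3 * (1 + |((a i - ⌊c ω i⌋ : ℤ) : ℝ)|) ^ 2)⁻¹) ?_ ?_ ?_ ?_
  · unfold CE
    refine h.trans ?_
    have e : (m : ℝ) * (2 * Ex p (fun ω => Real.log (D ω)) + Real.log 27)
        = ∑ ω, p ω * (m * (2 * Real.log (D ω) + Real.log 27)) := by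
      unfold Ex
      have h2 : ∑ ω, p ω * (m * (2 * Real.log (D ω) + Real.log 27))
          = m * (2 * ∑ ω, p ω * Real.log (D ω)) + m * Real.log 27 * ∑ ω, p ω := by
        rw [Finset.mul_sum, Finset.mul_sum, Finset.mul_sum, ← Finset.sum_add_distrib]
        refine Finset.sum_congr rfl fun ω _ => ?_
        ring
      rw [h2, hp.2]
      ring
    rw [e]
    refine Finset.sum_le_sum fun ω _ => ?_
    rcases (hp.1 ω).eq_or_lt with h0 | h0
    · rw [← h0]; simp
    refine mul_le_mul_of_nonneg_left ?_ h0.le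
    rw [Real.log_prod (fun i _ => by positivity), ← Finset.sum_neg_distrib]
    calc ∑ i : Fin m, -Real.log ((3 * (1 + |((X ω i - ⌊c ω i⌋ : ℤ) : ℝ)|) ^ 2)⁻¹)
        ≤ ∑ _i : Fin m, (2 * Real.log (D ω) + Real.log 27) := by
          refine Finset.sum_le_sum fun i _ => ?_
          have hd := hD ω
          have h1 : |((X ω i - ⌊c ω i⌋ : ℤ) : ℝ)| ≤ D ω + 1 := by
            push_cast
            have a1 := abs_le.1 (hX ω h0 i)
            have a2 := Int.floor_le (c ω i)
            have a3 := Int.lt_floor_add_one (c ω i)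
            rw [abs_le]
            constructor <;> linarith [a1.1, a1.2]
          rw [Real.log_inv, neg_neg]
          have e2 : 2 * Real.log (D ω) + Real.log 27 = Real.log (3 * (3 * D ω) ^ 2) := by
            rw [show (3 : ℝ) * (3 * D ω) ^ 2 = 27 * (D ω) ^ 2 by ring,
              Real.log_mul (by norm_num) (by positivity), Real.log_pow]
            push_cast
            ring
          rw [e2]
          refine Real.log_le_log (by positivity) ?_
          refine mul_le_mul_of_nonneg_left ?_ (by norm_num)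
          refine pow_le_pow_left₀ (by positivity) ?_ 2
          linarith
      _ = m * (2 * Real.log (D ω) + Real.log 27) := by
          rw [Finset.sum_const, Finset.card_univ, Fintype.card_fin, nsmul_eq_mul]
  · intro ω a
    exact Finset.prod_nonneg fun i _ => by positivity
  · intro ω ω' h1 h2 h3
    rw [hm ω ω' h1 h2 h3]
  · intro ω F
    exact sum_heavy_box (fun i => ⌊c ω i⌋) F
  · intro ω _
    exact Finset.prod_pos fun i _ => by positivity

/-- cells of real vectors near a known vector -/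
theorem CE_heavy_cell {m : ℕ} {δ : ℝ} (hδ : 0 < δ) (hp : IsProb p) (r : Setoid Ω)
    (u c : Ω → Fin m → ℝ) (D : Ω → ℝ) {a : ℝ} (ha : 0 < a) (hD : ∀ ω, 1 ≤ D ω)
    (hm : ∀ ω ω', 0 < p ω → 0 < p ω' → r ω ω' → c ω = c ω')
    (hX : ∀ ω, 0 < p ω → ∀ i, |u ω i - c ω i| ≤ a * D ω * δ) :
    CE p (Setoid.ker (fun ω => cell δ (u ω))) r
      ≤ m * (2 * Ex p (fun ω => Real.log (D ω)) + (2 * Real.log (a + 1) + Real.log 27)) := by
  have h := CE_heavy hp r (fun ω => cell δ (u ω)) (fun ω i => c ω i / δ)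
    (fun ω => (a + 1) * D ω) (fun ω => by nlinarith [hD ω]) ?_ ?_
  · refine h.trans (le_of_eq ?_)
    have e : Ex p (fun ω => Real.log ((a + 1) * D ω))
        = Ex p (fun ω => Real.log (D ω)) + Real.log (a + 1) := by
      rw [← Ex_add_const hp]
      unfold Ex
      refine Finset.sum_congr rfl fun ω _ => ?_
      have := hD ω
      have e0 : Real.log ((a + 1) * D ω) = Real.log (D ω) + Real.log (a + 1) := by
        rw [Real.log_mul (by linarith) (by linarith), add_comm]
      show p ω * Real.log ((a + 1) * D ω) = p ω * (Real.log (D ω) + Real.log (a + 1))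
      rw [e0]
    rw [e]
    ring
  · intro ω ω' h1 h2 h3
    simp only [hm ω ω' h1 h2 h3]
  · intro ω h0 i
    have e1 : ((cell δ (u ω) i : ℤ) : ℝ) = (⌊u ω i / δ⌋ : ℝ) := rfl
    rw [e1]
    have h3 : |u ω i / δ - c ω i / δ| ≤ a * D ω := by
      rw [← sub_div, abs_div, abs_of_pos hδ, div_le_iff₀ hδ]
      exact hX ω h0 i
    have a1 := Int.floor_le (u ω i / δ)
    have a2 := Int.lt_floor_add_one (u ω i / δ)
    have a3 := hD ω
    rw [abs_le] at h3 ⊢
    constructor <;> nlinarith [h3.1, h3.2]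

end

section real

variable {M : ℕ}

/-- the pointwise estimate -/
theorem col_real {δ : ℝ} (hδ : 0 < δ) (hδ1 : δ ≤ 1) (hM : 1 ≤ δ * M) (s t t' : Fin M)
    (c : ℤ) {X V X2 V2 W A' F' : ℝ} (hX : |X| ≤ 1) (hV : |V| ≤ 1) (hX2 : |X2| ≤ 1)
    (hV2 : |V2| ≤ 1) (hW : |W| ≤ 1)
    (hJ : |(X + ht t * V) - (X2 + ht t * V2)| ≤ δ)
    (hA : |(X + ht s * V) - A'| ≤ δ)
    (hF : |(X2 + ht t * V2 + (c : ℝ) / M * W) - F'| ≤ δ) :
    |(X + ht t' * V + ((mv c s t t' : ℤ) : ℝ) / M * W)
      - (if ((s : ℕ) : ℤ) = ((t : ℕ) : ℤ) + c then 0 else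
        (((((t : ℕ) : ℤ) + c : ℤ) : ℝ) / M - ((((t' : ℕ) : ℤ) + mv c s t t' : ℤ) : ℝ) / M)
          / (((((t : ℕ) : ℤ) + c : ℤ) : ℝ) / M - ht s) * A'
        + (((((t' : ℕ) : ℤ) + mv c s t t' : ℤ) : ℝ) / M - ht s)
          / (((((t : ℕ) : ℤ) + c : ℤ) : ℝ) / M - ht s) * F')|
    ≤ 9 * ((1 / dst s t) * ((1 + M / max |((((s : ℕ) : ℤ) - (((t : ℕ) : ℤ) + c) : ℤ) : ℝ)| 1)
      * ((1 + |((((t : ℕ) : ℤ) + c : ℤ) : ℝ)| / M)
        * (1 + |((((t' : ℕ) : ℤ) + mv c s t t' : ℤ) : ℝ)| / M)))) * δ := by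
  have hM1 := one_le_M s
  have hM0 : (0 : ℝ) < M := by linarith
  set σ := ht s with hσ
  set τ := ht t with hτ
  set τ' := ht t' with hτ'
  have es : σ = ((s : ℕ) : ℝ) / M := rfl
  have et : τ = ((t : ℕ) : ℝ) / M := rfl
  have et' : τ' = ((t' : ℕ) : ℝ) / M := rfl
  have hσm : |σ| ≤ 1 := ht_mem s
  have hτm : |τ| ≤ 1 := ht_mem t
  have hτ'm : |τ'| ≤ 1 := ht_mem t'
  set g : ℤ := mv c s t t' with hg
  set β : ℝ := (c : ℝ) / M with hβ
  set γ : ℝ := (g : ℝ) / M with hγ
  have ein : ((((t : ℕ) : ℤ) + c : ℤ) : ℝ) / M = τ + β := by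
    push_cast; rw [et, hβ]; ring
  have eout : ((((t' : ℕ) : ℤ) + g : ℤ) : ℝ) / M = τ' + γ := by
    push_cast; rw [et', hγ]; ring
  set a : ℝ := |((((t : ℕ) : ℤ) + c : ℤ) : ℝ)| / M with ha
  set b : ℝ := |((((t' : ℕ) : ℤ) + g : ℤ) : ℝ)| / M with hb
  have ea : a = |τ + β| := by rw [← ein, abs_div, abs_of_pos hM0]
  have eb : b = |τ' + γ| := by rw [← eout, abs_div, abs_of_pos hM0]
  rw [ein, eout]
  set q : ℝ := 1 + M / max |((((s : ℕ) : ℤ) - (((t : ℕ) : ℤ) + c) : ℤ) : ℝ)| 1 with hq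
  set d : ℝ := 1 / dst s t with hd
  have ha0 : 0 ≤ a := by rw [ea]; exact abs_nonneg _
  have hb0 : 0 ≤ b := by rw [eb]; exact abs_nonneg _
  have hd1 : 1 ≤ d := one_le_inv_dst s t
  have hq1 : 1 ≤ q := by
    rw [hq]
    have : 0 ≤ (M : ℝ) / max |((((s : ℕ) : ℤ) - (((t : ℕ) : ℤ) + c) : ℤ) : ℝ)| 1 := by positivity
    linarith
  have hβa : |β| ≤ a + 1 := by
    have := abs_sub (τ + β) τ
    rw [add_sub_cancel_left, ← ea] at this
    linarith
  have hγb : |γ| ≤ b + 1 := by
    have := abs_sub (τ' + γ) τ'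
    rw [add_sub_cancel_left, ← eb] at this
    linarith
  have hP : ∀ (x y t : ℝ), |x| ≤ 1 → |y| ≤ 1 → |t| ≤ 1 → |x + t * y| ≤ 2 := by
    intro x y t h1 h2 h3
    have : |t * y| ≤ 1 := by
      rw [abs_mul]
      exact mul_le_one₀ h3 (abs_nonneg _) h2
    exact (abs_add_le _ _).trans (by linarith)
  have hab1 : 1 ≤ (1 + a) * (1 + b) :=
    one_le_mul_of_one_le_of_one_le (by linarith) (by linarith)
  have hprod : 1 ≤ q * ((1 + a) * (1 + b)) := one_le_mul_of_one_le_of_one_le hq1 hab1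
  have hA0 : |X + σ * V| ≤ 2 := hP _ _ _ hX hV hσm
  have hF0 : |X2 + τ * V2 + β * W| ≤ 3 + a := by
    have h1 := hP X2 V2 τ hX2 hV2 hτm
    have h2 : |β * W| ≤ a + 1 := by
      rw [abs_mul]
      calc |β| * |W| ≤ (a + 1) * 1 := mul_le_mul hβa hW (abs_nonneg _) (by linarith)
        _ = a + 1 := mul_one _
    exact (abs_add_le _ _).trans (by linarith)
  by_cases h1 : ((s : ℕ) : ℤ) = ((t : ℕ) : ℤ) + c
  · -- the two known points have the same height
    rw [if_pos h1, sub_zero]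
    have hq2 : (M : ℝ) ≤ q := by
      rw [hq, h1, sub_self, Int.cast_zero, abs_zero, max_eq_right (by norm_num : (0 : ℝ) ≤ 1),
        div_one]
      linarith
    have h2 : |X + τ' * V + γ * W| ≤ 3 * (1 + b) := by
      have h3 := hP X V τ' hX hV hτ'm
      have h4 : |γ * W| ≤ b + 1 := by
        rw [abs_mul]
        calc |γ| * |W| ≤ (b + 1) * 1 := mul_le_mul hγb hW (abs_nonneg _) (by linarith)
          _ = b + 1 := mul_one _
      exact (abs_add_le _ _).trans (by linarith)
    have h5 : 3 * (1 + b) ≤ 9 * (d * (q * ((1 + a) * (1 + b)))) * δ := by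
      have h6 : 1 ≤ q * δ := by
        refine hM.trans ?_
        rw [mul_comm]
        exact mul_le_mul_of_nonneg_right hq2 hδ.le
      have h7 : (1 + b) ≤ d * ((q * δ) * ((1 + a) * (1 + b))) := by
        have h8 : (1 + b) ≤ (1 + a) * (1 + b) :=
          le_mul_of_one_le_left (by linarith) (by linarith)
        have h9 : (1 + a) * (1 + b) ≤ (q * δ) * ((1 + a) * (1 + b)) := by
          have : 0 ≤ (1 + a) * (1 + b) := by positivity
          exact le_mul_of_one_le_left this h6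
        have h10 : (q * δ) * ((1 + a) * (1 + b)) ≤ d * ((q * δ) * ((1 + a) * (1 + b))) := by
          have : 0 ≤ (q * δ) * ((1 + a) * (1 + b)) := by positivity
          exact le_mul_of_one_le_left this hd1
        linarith
      have e3 : 9 * (d * (q * ((1 + a) * (1 + b)))) * δ
          = 9 * (d * ((q * δ) * ((1 + a) * (1 + b)))) := by ring
      rw [e3]
      linarith
    linarith
  · rw [if_neg h1]
    -- the distance of the known heights
    have hne : τ + β - σ ≠ 0 := by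
      intro h2
      apply h1
      have h3 : ((((t : ℕ) : ℤ) + c : ℤ) : ℝ) / M = ((s : ℕ) : ℝ) / M := by
        rw [ein, ← es]; linarith
      have h4 : ((((t : ℕ) : ℤ) + c : ℤ) : ℝ) = ((s : ℕ) : ℝ) := by
        field_simp at h3
        exact h3
      exact_mod_cast h4.symm
    have hq2 : |1 / (τ + β - σ)| ≤ q := by
      have h2 : 1 ≤ |((((s : ℕ) : ℤ) - (((t : ℕ) : ℤ) + c) : ℤ) : ℝ)| := by
        have : (((s : ℕ) : ℤ) - (((t : ℕ) : ℤ) + c)) ≠ 0 := sub_ne_zero.2 h1
        exact_mod_cast Int.one_le_abs this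
      have h3 : |τ + β - σ| = |((((s : ℕ) : ℤ) - (((t : ℕ) : ℤ) + c) : ℤ) : ℝ)| / M := by
        rw [← ein, es, ← abs_of_pos hM0, ← abs_div, abs_sub_comm, abs_of_pos hM0]
        congr 1
        push_cast
        ring
      rw [abs_div, abs_one, h3, hq, max_eq_left h2, one_div_div]
      linarith
    set μ : ℝ := (τ' + γ - σ) / (τ + β - σ) with hμ
    set ν : ℝ := (τ + β - (τ' + γ)) / (τ + β - σ) with hν
    have hμν : μ + ν = 1 := by
      rw [hμ, hν, ← add_div]
      rw [div_eq_one_iff_eq hne]; ring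
    have hμa : |μ| ≤ q * (1 + b) := by
      have e2 : μ = 1 / (τ + β - σ) * (τ' + γ - σ) := by rw [hμ]; ring
      rw [e2, abs_mul]
      refine mul_le_mul hq2 ?_ (abs_nonneg _) (by linarith)
      have := abs_sub (τ' + γ) σ
      rw [← eb] at this
      linarith
    have hνa : |ν| ≤ q * (a + b) := by
      have e2 : ν = 1 / (τ + β - σ) * (τ + β - (τ' + γ)) := by rw [hν]; ring
      rw [e2, abs_mul]
      refine mul_le_mul hq2 ?_ (abs_nonneg _) (by linarith)
      have := abs_sub (τ + β) (τ' + γ)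
      rw [← eb, ← ea] at this
      linarith
    by_cases h2 : s = t
    · -- degenerate case
      have hg0 : g = 0 := by
        rw [hg, h2]
        unfold mv
        rw [sub_self, div_zero, mul_zero, Int.floor_zero]
      have hγ0 : γ = 0 := by rw [hγ, hg0]; simp
      have hdM : d = M := by rw [hd, h2]; exact inv_dst_self t
      have hdδ : 1 ≤ d * δ := by rw [hdM]; linarith
      have hA' : |A'| ≤ 3 := by
        have := abs_sub (X + σ * V) ((X + σ * V) - A')
        rw [sub_sub_cancel] at this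
        linarith
      have hF' : |F'| ≤ 4 + a := by
        have := abs_sub (X2 + τ * V2 + β * W) ((X2 + τ * V2 + β * W) - F')
        rw [sub_sub_cancel] at this
        linarith
      have h3 : |X + τ' * V + γ * W| ≤ 2 := by
        rw [hγ0, zero_mul, add_zero]
        exact hP _ _ _ hX hV hτ'm
      have h4 : |ν * A'| ≤ q * (a + b) * 3 := by
        rw [abs_mul]
        exact mul_le_mul hνa hA' (abs_nonneg _) (by positivity)
      have h5 : |μ * F'| ≤ q * (1 + b) * (4 + a) := by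
        rw [abs_mul]
        exact mul_le_mul hμa hF' (abs_nonneg _) (by positivity)
      have h6 : |(X + τ' * V + γ * W) - (ν * A' + μ * F')| ≤ 2 + q * (a + b) * 3
          + q * (1 + b) * (4 + a) := by
        have g1 := abs_sub (X + τ' * V + γ * W) (ν * A' + μ * F')
        have g2 := abs_add_le (ν * A') (μ * F')
        linarith
      have h7 : 2 + q * (a + b) * 3 + q * (1 + b) * (4 + a) ≤ 9 * (q * ((1 + a) * (1 + b))) := by
        have g1 : (a + b) * 3 + (1 + b) * (4 + a) ≤ 7 * ((1 + a) * (1 + b)) := by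
          have := mul_nonneg ha0 hb0
          have e9 : (a + b) * 3 + (1 + b) * (4 + a) = 4 + 4 * a + 7 * b + a * b := by ring
          have e10 : 7 * ((1 + a) * (1 + b)) = 7 + 7 * a + 7 * b + 7 * (a * b) := by ring
          rw [e9, e10]
          linarith
        have g2 := mul_le_mul_of_nonneg_left g1 (by linarith : 0 ≤ q)
        have e11 : q * ((a + b) * 3 + (1 + b) * (4 + a)) = q * (a + b) * 3 + q * (1 + b) * (4 + a) := by
          ring
        have e12 : q * (7 * ((1 + a) * (1 + b))) = 7 * (q * ((1 + a) * (1 + b))) := by ring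
        rw [e11, e12] at g2
        linarith
      have h8 : 9 * (q * ((1 + a) * (1 + b))) ≤ 9 * (d * (q * ((1 + a) * (1 + b)))) * δ := by
        have g1 : 0 ≤ q * ((1 + a) * (1 + b)) := by positivity
        have g2 := mul_le_mul_of_nonneg_right hdδ g1
        have e3 : 9 * (d * (q * ((1 + a) * (1 + b)))) * δ = 9 * (d * δ * (q * ((1 + a) * (1 + b)))) := by
          ring
        rw [e3]
        linarith
      linarith
    · -- main case
      have hst : σ - τ ≠ 0 := by
        intro h3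
        exact ht_ne_of_ne h2 (by linarith)
      set ms : ℝ := (σ - τ') / (σ - τ) with hms
      have hmsd : |ms| ≤ d := abs_ratio_le s t t'
      set γs : ℝ := β * ms with hγs
      have hrd : |γ - γs| ≤ δ := by
        have h3 := round_near hM ((c : ℝ) * ((ht s - ht t') / (ht s - ht t)))
        have e4 : γ - γs = (⌊(c : ℝ) * ((ht s - ht t') / (ht s - ht t))⌋ : ℝ) / M
            - (c : ℝ) * ((ht s - ht t') / (ht s - ht t)) / M := by
          rw [hγ, hg, hγs, hβ, hms]
          unfold mv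
          ring
        rw [e4]
        exact h3
      have hdiff : μ - ms = (γ - γs) * (1 / (τ + β - σ)) := by
        have e5 : ms * (τ + β - σ) = τ' - σ + γs := by
          have e6 : ms * (σ - τ) = σ - τ' := by
            rw [hms]; field_simp
          rw [hγs]
          linear_combination -e6
        have e7 : μ * (τ + β - σ) = τ' + γ - σ := by
          rw [hμ]; field_simp
        field_simp
        linear_combination e7 - e5
      have hνμ : ν = 1 - μ := by linarith
      have key : (X + τ' * V + γ * W) - (ν * A' + μ * F')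
          = (γ - γs) * W + ms * ((X + τ * V) - (X2 + τ * V2))
            + (μ - ms) * ((X + σ * V) - (X2 + τ * V2 + β * W))
            + ν * ((X + σ * V) - A') + μ * ((X2 + τ * V2 + β * W) - F') := by
        have e6 : ms * (σ - τ) = σ - τ' := by
          rw [hms]; field_simp
        rw [hνμ, hγs]
        linear_combination V * e6
      rw [key]
      have g1 : |(γ - γs) * W| ≤ δ := by
        rw [abs_mul]
        calc |γ - γs| * |W| ≤ δ * 1 := mul_le_mul hrd hW (abs_nonneg _) hδ.le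
          _ = δ := mul_one _
      have g2 : |ms * ((X + τ * V) - (X2 + τ * V2))| ≤ d * δ := by
        rw [abs_mul]
        exact mul_le_mul hmsd hJ (abs_nonneg _) (by linarith)
      have g3 : |(μ - ms) * ((X + σ * V) - (X2 + τ * V2 + β * W))| ≤ (δ * q) * (5 + a) := by
        rw [abs_mul]
        refine mul_le_mul ?_ ?_ (abs_nonneg _) (by positivity)
        · rw [hdiff, abs_mul]
          exact mul_le_mul hrd hq2 (abs_nonneg _) hδ.le
        · have := abs_sub (X + σ * V) (X2 + τ * V2 + β * W)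
          linarith
      have g4 : |ν * ((X + σ * V) - A')| ≤ q * (a + b) * δ := by
        rw [abs_mul]
        exact mul_le_mul hνa hA (abs_nonneg _) (by positivity)
      have g5 : |μ * ((X2 + τ * V2 + β * W) - F')| ≤ q * (1 + b) * δ := by
        rw [abs_mul]
        exact mul_le_mul hμa hF (abs_nonneg _) (by positivity)
      have g6 : |(γ - γs) * W + ms * ((X + τ * V) - (X2 + τ * V2))
            + (μ - ms) * ((X + σ * V) - (X2 + τ * V2 + β * W))
            + ν * ((X + σ * V) - A') + μ * ((X2 + τ * V2 + β * W) - F')|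
          ≤ δ + d * δ + (δ * q) * (5 + a) + q * (a + b) * δ + q * (1 + b) * δ := by
        refine (abs_add_le _ _).trans (add_le_add ?_ g5)
        refine (abs_add_le _ _).trans (add_le_add ?_ g4)
        refine (abs_add_le _ _).trans (add_le_add ?_ g3)
        exact (abs_add_le _ _).trans (add_le_add g1 g2)
      refine g6.trans ?_
      have g7 : δ + d * δ + (δ * q) * (5 + a) + q * (a + b) * δ + q * (1 + b) * δ
          = (1 + d + q * (6 + 2 * a + 2 * b)) * δ := by ring
      rw [g7]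
      refine mul_le_mul_of_nonneg_right ?_ hδ.le
      have g8 : 6 + 2 * a + 2 * b ≤ 6 * ((1 + a) * (1 + b)) := by
        have := mul_nonneg ha0 hb0
        have e10 : 6 * ((1 + a) * (1 + b)) = 6 + 6 * a + 6 * b + 6 * (a * b) := by ring
        rw [e10]
        linarith
      have g9 : 0 ≤ q * ((1 + a) * (1 + b)) := by positivity
      have g10 : q * (6 + 2 * a + 2 * b) ≤ 6 * (q * ((1 + a) * (1 + b))) := by
        have := mul_le_mul_of_nonneg_left g8 (by linarith : 0 ≤ q)
        have e12 : q * (6 * ((1 + a) * (1 + b))) = 6 * (q * ((1 + a) * (1 + b))) := by ring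
        rw [e12] at this
        exact this
      have g11 : q * ((1 + a) * (1 + b)) ≤ d * (q * ((1 + a) * (1 + b))) :=
        le_mul_of_one_le_left g9 hd1
      have g12 : d ≤ d * (q * ((1 + a) * (1 + b))) :=
        le_mul_of_one_le_right (by linarith) hprod
      have g13 : 1 ≤ d * (q * ((1 + a) * (1 + b))) := hd1.trans g12
      linarith

end real

section

variable {Ω : Type} [Fintype Ω] {p : Ω → ℝ} {m M : ℕ} {L : Type} {x v : L → Fin m → ℝ} {δ : ℝ}

/-- COLLINEAR: the form `(point of l at t') + (mv c s t t' / M) v(l')` has the height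
`t' + mv c s t t'` and lies on the line through the point of `l` at height `s` and the form
`(point of l2 at t) + (c / M) v(l')`, whose height is `t + c`; here `l` and `l2` have the same cell at
height `t`. It is determined by the two points and the three heights; `t`, `t'`, `c` are not
known separately. -/
theorem CE_col (hp : IsProb p) (hδ : 0 < δ) (hδ1 : δ ≤ 1) (hM : 1 ≤ δ * M)
    (hx : ∀ l i, |x l i| ≤ 1) (hv : ∀ l i, |v l i| ≤ 1)
    (r : Setoid Ω) (l l2 l' : Ω → L) (c : Ω → ℤ) (s t t' : Ω → Fin M)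
    (hlink : ∀ ω, 0 < p ω → cell δ (pnt x v (l ω) (t ω)) = cell δ (pnt x v (l2 ω) (t ω)))
    (hm : ∀ ω ω', 0 < p ω → 0 < p ω' → r ω ω' → s ω = s ω' ∧
      ((t ω : ℕ) : ℤ) + c ω = ((t ω' : ℕ) : ℤ) + c ω' ∧
      ((t' ω : ℕ) : ℤ) + mv (c ω) (s ω) (t ω) (t' ω)
        = ((t' ω' : ℕ) : ℤ) + mv (c ω') (s ω') (t ω') (t' ω') ∧
      cell δ (pnt x v (l ω) (s ω)) = cell δ (pnt x v (l ω') (s ω')) ∧
      cell δ (frm x v (l2 ω) (t ω) (c ω) (v (l' ω)))
        = cell δ (frm x v (l2 ω') (t ω') (c ω') (v (l' ω')))) :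
    CE p (Setoid.ker (fun ω => cell δ (frm x v (l ω) (t' ω)
        (mv (c ω) (s ω) (t ω) (t' ω)) (v (l' ω))))) r
      ≤ m * (2 * (Ex p (fun ω => ld (s ω) (t ω))
          + Ex p (fun ω => dn M (((s ω : ℕ) : ℤ) - (((t ω : ℕ) : ℤ) + c ω)))
          + Ex p (fun ω => up M (((t ω : ℕ) : ℤ) + c ω))
          + Ex p (fun ω => up M (((t' ω : ℕ) : ℤ) + mv (c ω) (s ω) (t ω) (t' ω)))) + 8) := by
  classical
  set D : Ω → ℝ := fun ω => (1 / dst (s ω) (t ω)) *
    ((1 + M / max |((((s ω : ℕ) : ℤ) - (((t ω : ℕ) : ℤ) + c ω) : ℤ) : ℝ)| 1)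
      * ((1 + |((((t ω : ℕ) : ℤ) + c ω : ℤ) : ℝ)| / M)
        * (1 + |((((t' ω : ℕ) : ℤ) + mv (c ω) (s ω) (t ω) (t' ω) : ℤ) : ℝ)| / M))) with hDdef
  have hD1 : ∀ ω, 1 ≤ D ω := by
    intro ω
    have h1 : 1 ≤ 1 / dst (s ω) (t ω) := one_le_inv_dst _ _
    have h2 : (1 : ℝ) ≤ 1 + M / max |((((s ω : ℕ) : ℤ) - (((t ω : ℕ) : ℤ) + c ω) : ℤ) : ℝ)| 1 := by
      have : 0 ≤ (M : ℝ) / max |((((s ω : ℕ) : ℤ) - (((t ω : ℕ) : ℤ) + c ω) : ℤ) : ℝ)| 1 := by
        positivity
      linarith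
    have h3 : (1 : ℝ) ≤ 1 + |((((t ω : ℕ) : ℤ) + c ω : ℤ) : ℝ)| / M := by
      have : 0 ≤ |((((t ω : ℕ) : ℤ) + c ω : ℤ) : ℝ)| / M := by positivity
      linarith
    have h4 : (1 : ℝ) ≤ 1 + |((((t' ω : ℕ) : ℤ) + mv (c ω) (s ω) (t ω) (t' ω) : ℤ) : ℝ)| / M := by
      have : 0 ≤ |((((t' ω : ℕ) : ℤ) + mv (c ω) (s ω) (t ω) (t' ω) : ℤ) : ℝ)| / M := by positivity
      linarith
    exact one_le_mul_of_one_le_of_one_le h1 (one_le_mul_of_one_le_of_one_le h2
      (one_le_mul_of_one_le_of_one_le h3 h4))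
  have h := CE_heavy_cell hδ hp r
    (fun ω => frm x v (l ω) (t' ω) (mv (c ω) (s ω) (t ω) (t' ω)) (v (l' ω)))
    (fun ω i => if ((s ω : ℕ) : ℤ) = ((t ω : ℕ) : ℤ) + c ω then 0 else
        (((((t ω : ℕ) : ℤ) + c ω : ℤ) : ℝ) / M
          - ((((t' ω : ℕ) : ℤ) + mv (c ω) (s ω) (t ω) (t' ω) : ℤ) : ℝ) / M)
          / (((((t ω : ℕ) : ℤ) + c ω : ℤ) : ℝ) / M - ht (s ω))
          * (δ * (cell δ (pnt x v (l ω) (s ω)) i : ℤ))
        + (((((t' ω : ℕ) : ℤ) + mv (c ω) (s ω) (t ω) (t' ω) : ℤ) : ℝ) / M - ht (s ω))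
          / (((((t ω : ℕ) : ℤ) + c ω : ℤ) : ℝ) / M - ht (s ω))
          * (δ * (cell δ (frm x v (l2 ω) (t ω) (c ω) (v (l' ω))) i : ℤ)))
    D (a := 9) (by norm_num) hD1 ?_ ?_
  · refine h.trans ?_
    have e : Ex p (fun ω => Real.log (D ω)) = Ex p (fun ω => ld (s ω) (t ω))
          + Ex p (fun ω => dn M (((s ω : ℕ) : ℤ) - (((t ω : ℕ) : ℤ) + c ω)))
          + Ex p (fun ω => up M (((t ω : ℕ) : ℤ) + c ω))
          + Ex p (fun ω => up M (((t' ω : ℕ) : ℤ) + mv (c ω) (s ω) (t ω) (t' ω))) := by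
      unfold Ex
      rw [← Finset.sum_add_distrib, ← Finset.sum_add_distrib, ← Finset.sum_add_distrib]
      refine Finset.sum_congr rfl fun ω _ => ?_
      have g1 : (0 : ℝ) < 1 / dst (s ω) (t ω) := lt_of_lt_of_le one_pos (one_le_inv_dst _ _)
      have g2 : (0 : ℝ) < 1 + M / max |((((s ω : ℕ) : ℤ) - (((t ω : ℕ) : ℤ) + c ω) : ℤ) : ℝ)| 1 := by
        positivity
      have g3 : (0 : ℝ) < 1 + |((((t ω : ℕ) : ℤ) + c ω : ℤ) : ℝ)| / M := by positivity
      have g4 : (0 : ℝ) < 1 + |((((t' ω : ℕ) : ℤ) + mv (c ω) (s ω) (t ω) (t' ω) : ℤ) : ℝ)| / M := by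
        positivity
      have e1 : Real.log (D ω) = ld (s ω) (t ω)
          + dn M (((s ω : ℕ) : ℤ) - (((t ω : ℕ) : ℤ) + c ω))
          + up M (((t ω : ℕ) : ℤ) + c ω)
          + up M (((t' ω : ℕ) : ℤ) + mv (c ω) (s ω) (t ω) (t' ω)) := by
        rw [hDdef]
        simp only
        rw [Real.log_mul g1.ne' (mul_pos g2 (mul_pos g3 g4)).ne', Real.log_mul g2.ne'
          (mul_pos g3 g4).ne', Real.log_mul g3.ne' g4.ne']
        unfold ld dn up
        ring
      show p ω * Real.log (D ω) = p ω * ld (s ω) (t ω)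
          + p ω * dn M (((s ω : ℕ) : ℤ) - (((t ω : ℕ) : ℤ) + c ω))
          + p ω * up M (((t ω : ℕ) : ℤ) + c ω)
          + p ω * up M (((t' ω : ℕ) : ℤ) + mv (c ω) (s ω) (t ω) (t' ω))
      rw [e1]
      ring
    rw [e]
    refine mul_le_mul_of_nonneg_left ?_ (Nat.cast_nonneg m)
    have h10 : 2 * Real.log (9 + 1) + Real.log 27 ≤ 8 := by
      have l1 : 2 * Real.log (9 + 1) + Real.log 27 = Real.log 2700 := by
        rw [show (2700 : ℝ) = (9 + 1) ^ 2 * 27 by norm_num,
          Real.log_mul (by norm_num) (by norm_num), Real.log_pow]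
        push_cast
        ring
      rw [l1, Real.log_le_iff_le_exp (by norm_num)]
      have e1 : (2.7182818283 : ℝ) < Real.exp 1 := Real.exp_one_gt_d9
      have e8 : Real.exp 8 = Real.exp 1 ^ 8 := by
        rw [← Real.exp_nat_mul]
        norm_num
      rw [e8]
      have h3 : (2.7182818283 : ℝ) ^ 8 ≤ Real.exp 1 ^ 8 :=
        pow_le_pow_left₀ (by norm_num) e1.le 8
      refine le_trans ?_ h3
      norm_num
    linarith
  · intro ω ω' h1 h2 h3
    obtain ⟨e1, e2, e3, e4, e5⟩ := hm ω ω' h1 h2 h3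
    funext i
    rw [e5, e4, e3, e2, e1]
  · intro ω h0 i
    have hJ := cell_link hδ (hlink ω h0) i
    have hA := cell_err hδ (pnt x v (l ω) (s ω)) i
    have hF := cell_err hδ (frm x v (l2 ω) (t ω) (c ω) (v (l' ω))) i
    exact col_real hδ hδ1 hM (s ω) (t ω) (t' ω) (c ω) (hx (l ω) i) (hv (l ω) i) (hx (l2 ω) i)
      (hv (l2 ω) i) (hv (l' ω) i) hJ hA hF

end

end Pool.Agent.Helper90.Kak
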