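import Pool.Agent.Helper90.Kak.Base
import Pool.Agent.Helper6.Kak.HDefs

/-!
# The variables of the hybrid step on the glued space `YY`, in the notation of `Helper6.Kak.HDefs`
-/

set_option autoImplicit false

namespace Pool.Agent.Helper90.Kak

open Finset Pool.Agent.Helper8.Kak Pool.Agent.Helper6.Kak

section

variable {m M : ℕ} {G : Geo m M} (S : PSys G)

/-- the random variables; the scales and tubes are trivial on this space -/
noncomputable def VHY : VH → Setoid (YY S.Ω)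
  | .K => Setoid.comap d0 S.K
  | .l0 => Setoid.ker (fun y => S.l (d0 y))
  | .l1 => Setoid.ker (fun y => S.l (S.σ (d0 y)))
  | .l2 => Setoid.ker (fun y => S.l (S.σ (d1 y)))
  | .T0 => Setoid.ker (fun y => S.T (d0 y))
  | .T1 => Setoid.ker (fun y => S.T (d1 y))
  | .S => Setoid.ker (fun y => S.T (dS y))
  | .R => Setoid.ker (fun y => S.T (dR y))
  | .b => Setoid.ker (fun y => S.T (db y))
  | .b' => Setoid.ker (fun y => S.T (db' y))
  | .P0 => Setoid.ker (fun y => G.P (S.l (d0 y)) (S.T (d0 y)))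
  | .P1 => Setoid.ker (fun y => G.P (S.l (d0 y)) (S.T (d1 y)))
  | .PS => Setoid.ker (fun y => G.P (S.l (d0 y)) (S.T (dS y)))
  | .PR => Setoid.ker (fun y => G.P (S.l (S.σ (d0 y))) (S.T (dR y)))
  | .Pb => Setoid.ker (fun y => G.P (S.l (S.σ (d1 y))) (S.T (db y)))
  | .Pb' => Setoid.ker (fun y => G.P (S.l (S.σ (d1 y))) (S.T (db' y)))
  | .tw => Setoid.ker (vtw S)
  | .tz => Setoid.ker (vtz S)
  | .w => Setoid.ker (vw S)
  | .z => Setoid.ker (vz S)
  | .kq => ⊤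
  | .Q => ⊤
  | .kz => ⊤
  | .Qz => ⊤
  | .Pz => ⊤

@[simp] theorem VH_K (y y') : VHY S .K y y' ↔ S.K (d0 y) (d0 y') := Iff.rfl
@[simp] theorem VH_l0 (y y') : VHY S .l0 y y' ↔ S.l (d0 y) = S.l (d0 y') := Iff.rfl
@[simp] theorem VH_l1 (y y') : VHY S .l1 y y' ↔ S.l (S.σ (d0 y)) = S.l (S.σ (d0 y')) := Iff.rfl
@[simp] theorem VH_l2 (y y') : VHY S .l2 y y' ↔ S.l (S.σ (d1 y)) = S.l (S.σ (d1 y')) := Iff.rfl
@[simp] theorem VH_T0 (y y') : VHY S .T0 y y' ↔ S.T (d0 y) = S.T (d0 y') := Iff.rfl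
@[simp] theorem VH_T1 (y y') : VHY S .T1 y y' ↔ S.T (d1 y) = S.T (d1 y') := Iff.rfl
@[simp] theorem VH_S (y y') : VHY S .S y y' ↔ S.T (dS y) = S.T (dS y') := Iff.rfl
@[simp] theorem VH_R (y y') : VHY S .R y y' ↔ S.T (dR y) = S.T (dR y') := Iff.rfl
@[simp] theorem VH_b (y y') : VHY S .b y y' ↔ S.T (db y) = S.T (db y') := Iff.rfl
@[simp] theorem VH_b' (y y') : VHY S .b' y y' ↔ S.T (db' y) = S.T (db' y') := Iff.rfl
@[simp] theorem VH_P0 (y y') : VHY S .P0 y y' ↔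
  G.P (S.l (d0 y)) (S.T (d0 y)) = G.P (S.l (d0 y')) (S.T (d0 y')) := Iff.rfl
@[simp] theorem VH_P1 (y y') : VHY S .P1 y y' ↔
  G.P (S.l (d0 y)) (S.T (d1 y)) = G.P (S.l (d0 y')) (S.T (d1 y')) := Iff.rfl
@[simp] theorem VH_PS (y y') : VHY S .PS y y' ↔
  G.P (S.l (d0 y)) (S.T (dS y)) = G.P (S.l (d0 y')) (S.T (dS y')) := Iff.rfl
@[simp] theorem VH_PR (y y') : VHY S .PR y y' ↔
  G.P (S.l (S.σ (d0 y))) (S.T (dR y)) = G.P (S.l (S.σ (d0 y'))) (S.T (dR y')) := Iff.rfl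
@[simp] theorem VH_Pb (y y') : VHY S .Pb y y' ↔
  G.P (S.l (S.σ (d1 y))) (S.T (db y)) = G.P (S.l (S.σ (d1 y'))) (S.T (db y')) := Iff.rfl
@[simp] theorem VH_Pb' (y y') : VHY S .Pb' y y' ↔
  G.P (S.l (S.σ (d1 y))) (S.T (db' y)) = G.P (S.l (S.σ (d1 y'))) (S.T (db' y')) := Iff.rfl
@[simp] theorem VH_tw (y y') : VHY S .tw y y' ↔ vtw S y = vtw S y' := Iff.rfl
@[simp] theorem VH_tz (y y') : VHY S .tz y y' ↔ vtz S y = vtz S y' := Iff.rfl
@[simp] theorem VH_w (y y') : VHY S .w y y' ↔ vw S y = vw S y' := Iff.rfl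
@[simp] theorem VH_z (y y') : VHY S .z y y' ↔ vz S y = vz S y' := Iff.rfl
theorem VH_kq (y y') : VHY S .kq y y' := trivial
theorem VH_Q (y y') : VHY S .Q y y' := trivial
theorem VH_kz (y y') : VHY S .kz y y' := trivial
theorem VH_Qz (y y') : VHY S .Qz y y' := trivial
theorem VH_Pz (y y') : VHY S .Pz y y' := trivial

/-- `B` from `tw` and `T1` -/
theorem vB_eq {y y' : YY S.Ω} (h : S.T (d1 y) = S.T (d1 y')) (h' : vtw S y = vtw S y') :
    vB S y = vB S y' := by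
  unfold vtw at h'
  rw [h] at h'
  linarith

/-- `c` from `tz` and `b` -/
theorem vc_eq {y y' : YY S.Ω} (h : S.T (db y) = S.T (db y')) (h' : vtz S y = vtz S y') :
    vc S y = vc S y' := by
  unfold vtz at h'
  rw [h] at h'
  linarith

theorem validH : Valid (pY S) (VHY S) Hy.rules := by
  intro r hr D hD y y' hy hy' h
  have k := lk S hy hy'
  simp only [Hy.rules, List.mem_cons, List.not_mem_nil, or_false] at hr
  rcases hr with rfl | rfl | rfl | rfl | rfl | rfl | rfl | rfl | rfl | rfl | rfl <;>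
    simp only [List.mem_cons, List.not_mem_nil, or_false] at hD
  · rcases hD with rfl | rfl <;>
      simp only [Finset.mem_insert, Finset.mem_singleton, forall_eq_or_imp, forall_eq, VH_l0,
        VH_T0, VH_l1] at h ⊢
    · rw [VH_P0, h.1, h.2]
    · rw [VH_P0, ← k.p0, ← k.q0, h.1, h.2]
  · rcases hD with rfl | rfl <;>
      simp only [Finset.mem_insert, Finset.mem_singleton, forall_eq_or_imp, forall_eq, VH_l0,
        VH_T1, VH_l2] at h ⊢
    · rw [VH_P1, h.1, h.2]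
    · rw [VH_P1, ← k.p1, ← k.q1, h.1, h.2]
  · subst hD
    simp only [Finset.mem_insert, Finset.mem_singleton, forall_eq_or_imp, forall_eq, VH_l0,
      VH_S] at h ⊢
    rw [VH_PS, h.1, h.2]
  · subst hD
    simp only [Finset.mem_insert, Finset.mem_singleton, forall_eq_or_imp, forall_eq, VH_l1,
      VH_R] at h ⊢
    rw [VH_PR, h.1, h.2]
  · subst hD
    simp only [Finset.mem_insert, Finset.mem_singleton, forall_eq_or_imp, forall_eq, VH_l2,
      VH_b] at h ⊢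
    rw [VH_Pb, h.1, h.2]
  · subst hD
    simp only [Finset.mem_insert, Finset.mem_singleton, forall_eq_or_imp, forall_eq, VH_l2,
      VH_b'] at h ⊢
    rw [VH_Pb', h.1, h.2]
  · subst hD
    simp only [Finset.mem_insert, Finset.mem_singleton, forall_eq_or_imp, forall_eq, VH_T0,
      VH_T1, VH_S, VH_R] at h ⊢
    obtain ⟨h1, h2, h3, h4⟩ := h
    rw [VH_tw]
    unfold vtw vB
    rw [h1, h2, h3, h4]
  · subst hD
    simp only [Finset.mem_insert, Finset.mem_singleton, forall_eq_or_imp, forall_eq, VH_tw,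
      VH_T1, VH_b, VH_b'] at h ⊢
    obtain ⟨h1, h2, h3, h4⟩ := h
    rw [VH_tz]
    unfold vtz vc
    rw [vB_eq S h2 h1, h2, h3, h4]
  · subst hD
    simp only [Finset.mem_insert, Finset.mem_singleton, forall_eq_or_imp, forall_eq, VH_l0, VH_l1,
      VH_T1, VH_tw] at h ⊢
    obtain ⟨h1, h2, h3, h4⟩ := h
    rw [VH_w]
    unfold vw
    rw [vB_eq S h3 h4, h1, h2, h3]
  · subst hD
    simp only [Finset.mem_insert, Finset.mem_singleton, forall_eq_or_imp, forall_eq, VH_l2, VH_l1,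
      VH_b, VH_tz] at h ⊢
    obtain ⟨h1, h2, h3, h4⟩ := h
    rw [VH_z]
    unfold vz
    rw [vc_eq S h3 h4, h1, h2, h3]
  · exact VH_Pz S y y'

theorem baseH : Hy.Base (pY S) (VHY S) S.eK S.eL S.eB S.eT S.eP S.eB2 (Real.log M) (Lam S) where
  hp := hpY S
  hr := validH S
  hK := HH_coord (hpY S) (MP_d0 S.l (pr S)) _ _ S.K fun y y' h h' => by
    simp
  hL0 := HH_coord (hpY S) (MP_d0 S.l (pr S)) _ _ (S.K ⊓ Setoid.ker S.l) fun y y' h h' => by
    simp [Setoid.inf_iff_and, Setoid.ker_def]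
  hL1 := HH_coord (hpY S) (MP_d0σ S) _ _ (S.K ⊓ Setoid.ker S.l) fun y y' h h' => by
    have k := lk S h h'
    simp [Setoid.inf_iff_and, Setoid.ker_def, k.Kσ0]
  hL2 := HH_coord (hpY S) (MP_d1σ S) _ _ (S.K ⊓ Setoid.ker S.l) fun y y' h h' => by
    have k := lk S h h'
    simp [Setoid.inf_iff_and, Setoid.ker_def, k.Kσ1]
  h00 := HH_coord (hpY S) (MP_d0 S.l (pr S)) _ _ (S.K ⊓ Setoid.ker S.l ⊓ Setoid.ker S.T)
    fun y y' h h' => by
    simp [Setoid.inf_iff_and, Setoid.ker_def, and_assoc]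
  h01 := HH_coord (hpY S) (MP_d1 S.l (pr S)) _ _ (S.K ⊓ Setoid.ker S.l ⊓ Setoid.ker S.T)
    fun y y' h h' => by
    have k := lk S h h'
    simp [Setoid.inf_iff_and, Setoid.ker_def, k.K1, k.l1, k.m1, and_assoc]
  h0S := HH_coord (hpY S) (MP_dS S.l (pr S)) _ _ (S.K ⊓ Setoid.ker S.l ⊓ Setoid.ker S.T)
    fun y y' h h' => by
    have k := lk S h h'
    simp [Setoid.inf_iff_and, Setoid.ker_def, k.KS, k.lS, k.mS, and_assoc]
  h10 := HH_coord (hpY S) (MP_d0σ S) _ _ (S.K ⊓ Setoid.ker S.l ⊓ Setoid.ker S.T)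
    fun y y' h h' => by
    have k := lk S h h'
    simp [Setoid.inf_iff_and, Setoid.ker_def, k.Kσ0, k.t0, k.u0, and_assoc]
  h1R := HH_coord (hpY S) (MP_dR S.l (pr S)) _ _ (S.K ⊓ Setoid.ker S.l ⊓ Setoid.ker S.T)
    fun y y' h h' => by
    have k := lk S h h'
    simp [Setoid.inf_iff_and, Setoid.ker_def, k.KR, k.lR, k.mR, and_assoc]
  h21 := HH_coord (hpY S) (MP_d1σ S) _ _ (S.K ⊓ Setoid.ker S.l ⊓ Setoid.ker S.T)
    fun y y' h h' => by
    have k := lk S h h'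
    simp [Setoid.inf_iff_and, Setoid.ker_def, k.Kσ1, k.t1, k.u1, and_assoc]
  h2b := HH_coord (hpY S) (MP_db S.l (pr S)) _ _ (S.K ⊓ Setoid.ker S.l ⊓ Setoid.ker S.T)
    fun y y' h h' => by
    have k := lk S h h'
    simp [Setoid.inf_iff_and, Setoid.ker_def, k.Kb, k.lb, k.mb, and_assoc]
  h2b' := HH_coord (hpY S) (MP_db' S.l (pr S)) _ _ (S.K ⊓ Setoid.ker S.l ⊓ Setoid.ker S.T)
    fun y y' h h' => by
    have k := lk S h h'
    simp [Setoid.inf_iff_and, Setoid.ker_def, k.Kb', k.lb', k.mb', and_assoc]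
  hT0 := HH_coord (hpY S) (MP_d0 S.l (pr S)) _ _ (S.K ⊓ Setoid.ker S.T)
    fun y y' h h' => by
    simp [Setoid.inf_iff_and, Setoid.ker_def]
  hT1 := HH_coord (hpY S) (MP_d1 S.l (pr S)) _ _ (S.K ⊓ Setoid.ker S.T)
    fun y y' h h' => by
    have k := lk S h h'
    simp [Setoid.inf_iff_and, Setoid.ker_def, k.K1]
  hTS := HH_coord (hpY S) (MP_dS S.l (pr S)) _ _ (S.K ⊓ Setoid.ker S.T)
    fun y y' h h' => by
    have k := lk S h h'
    simp [Setoid.inf_iff_and, Setoid.ker_def, k.KS]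
  hTR := HH_coord (hpY S) (MP_dR S.l (pr S)) _ _ (S.K ⊓ Setoid.ker S.T)
    fun y y' h h' => by
    have k := lk S h h'
    simp [Setoid.inf_iff_and, Setoid.ker_def, k.KR]
  hTb := HH_coord (hpY S) (MP_db S.l (pr S)) _ _ (S.K ⊓ Setoid.ker S.T)
    fun y y' h h' => by
    have k := lk S h h'
    simp [Setoid.inf_iff_and, Setoid.ker_def, k.Kb]
  hTb' := HH_coord (hpY S) (MP_db' S.l (pr S)) _ _ (S.K ⊓ Setoid.ker S.T)
    fun y y' h h' => by
    have k := lk S h h'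
    simp [Setoid.inf_iff_and, Setoid.ker_def, k.Kb']
  hP0 := HH_coord (hpY S) (MP_d0 S.l (pr S)) _ _
    (S.K ⊓ Setoid.ker S.T ⊓ Setoid.ker (fun ω => G.P (S.l ω) (S.T ω))) fun y y' h h' => by
    simp [Setoid.inf_iff_and, Setoid.ker_def, and_assoc]
  hP1 := HH_coord (hpY S) (MP_d1 S.l (pr S)) _ _
    (S.K ⊓ Setoid.ker S.T ⊓ Setoid.ker (fun ω => G.P (S.l ω) (S.T ω))) fun y y' h h' => by
    have k := lk S h h'
    simp [Setoid.inf_iff_and, Setoid.ker_def, k.K1, k.l1, k.m1, and_assoc]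
  hPS := HH_coord (hpY S) (MP_dS S.l (pr S)) _ _
    (S.K ⊓ Setoid.ker S.T ⊓ Setoid.ker (fun ω => G.P (S.l ω) (S.T ω))) fun y y' h h' => by
    have k := lk S h h'
    simp [Setoid.inf_iff_and, Setoid.ker_def, k.KS, k.lS, k.mS, and_assoc]
  hPR := HH_coord (hpY S) (MP_dR S.l (pr S)) _ _
    (S.K ⊓ Setoid.ker S.T ⊓ Setoid.ker (fun ω => G.P (S.l ω) (S.T ω))) fun y y' h h' => by
    have k := lk S h h'
    simp [Setoid.inf_iff_and, Setoid.ker_def, k.KR, k.lR, k.mR, and_assoc]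
  hPb := HH_coord (hpY S) (MP_db S.l (pr S)) _ _
    (S.K ⊓ Setoid.ker S.T ⊓ Setoid.ker (fun ω => G.P (S.l ω) (S.T ω))) fun y y' h h' => by
    have k := lk S h h'
    simp [Setoid.inf_iff_and, Setoid.ker_def, k.Kb, k.lb, k.mb, and_assoc]
  hPb' := HH_coord (hpY S) (MP_db' S.l (pr S)) _ _
    (S.K ⊓ Setoid.ker S.T ⊓ Setoid.ker (fun ω => G.P (S.l ω) (S.T ω))) fun y y' h h' => by
    have k := lk S h h'
    simp [Setoid.inf_iff_and, Setoid.ker_def, k.Kb', k.lb', k.mb', and_assoc]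
  h010 := HH_coord (hpY S) (MP_d0 S.l (pr S)) _ _ (rB2 S) fun y y' h h' => by
    simp [rB2_iff, and_assoc]
  h021 := HH_coord (hpY S) (MP_d1 S.l (pr S)) _ _ (rB2 S) fun y y' h h' => by
    have k := lk S h h'
    simp [rB2_iff, k.K1, k.l1, k.m1, and_assoc]
  tot := by
    rw [← ent_rYY]
    unfold HH
    refine Ent_mono' (hpY S) fun y y' h h' h1 => ?_
    have k := lk S h h'
    rw [inf_rel] at h1
    simp only [Finset.mem_insert, Finset.mem_singleton, forall_eq_or_imp, forall_eq, VH_K, VH_l0,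
      VH_l1, VH_l2, VH_T0, VH_T1, VH_S, VH_R, VH_b, VH_b'] at h1
    obtain ⟨g1, g2, g3, g4, g5, g6, g7, g8, g9, g10⟩ := h1
    simp only [rYY_iff, rB_iff, rB2_iff, k.KS, k.K1, k.KR, k.Kb, k.Kb', k.lS, k.l1, k.lR, k.lb,
      k.lb', k.mS, k.m1, k.mR, k.mb, k.mb', g1, g2, g3, g4, g5, g6, g7, g8, g9, g10, and_self]
  lam1 := by
    unfold Lam
    congr 1
    · refine HH_coord (hpY S) (MP_X S.l (pr S)) _ _ (q1 S) fun y y' h h' => ?_
      have k := lk S h h'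
      have : q1 S y.1.1 y'.1.1 ↔ (S.K (d0 y) (d0 y') ∧ S.T (dS y) = S.T (dS y') ∧
        S.T (dR y) = S.T (dR y')) ∧
        (G.P (S.l (dS y)) (S.T (dS y)) = G.P (S.l (dS y')) (S.T (dS y')) ∧
        G.P (S.l (dR y)) (S.T (dR y)) = G.P (S.l (dR y')) (S.T (dR y'))) := Iff.rfl
      rw [this]
      simp [k.lS, k.mS, k.lR, k.mR, and_assoc]
    · refine HH_coord (hpY S) (MP_X S.l (pr S)) _ _ (q2 S) fun y y' h h' => ?_
      have : q2 S y.1.1 y'.1.1 ↔ (S.K (d0 y) (d0 y') ∧ S.T (dS y) = S.T (dS y') ∧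
        S.T (dR y) = S.T (dR y')) := Iff.rfl
      rw [this]
      simp
  lam2 := by
    unfold Lam
    congr 1
    · refine HH_coord (hpY S) (MP_sym S.l (pr S)) _ _ (q1 S) fun y y' h h' => ?_
      have k := lk S h h'
      have : q1 S (d0 y, (d1 y, db y)) (d0 y', (d1 y', db y')) ↔
        (S.K (d1 y) (d1 y') ∧ S.T (d0 y) = S.T (d0 y') ∧ S.T (db y) = S.T (db y')) ∧
        (G.P (S.l (d0 y)) (S.T (d0 y)) = G.P (S.l (d0 y')) (S.T (d0 y')) ∧
        G.P (S.l (db y)) (S.T (db y)) = G.P (S.l (db y')) (S.T (db y'))) := Iff.rfl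
      rw [this]
      simp [k.K1, k.lb, k.mb, and_assoc]
    · refine HH_coord (hpY S) (MP_sym S.l (pr S)) _ _ (q2 S) fun y y' h h' => ?_
      have k := lk S h h'
      have : q2 S (d0 y, (d1 y, db y)) (d0 y', (d1 y', db y')) ↔
        (S.K (d1 y) (d1 y') ∧ S.T (d0 y) = S.T (d0 y') ∧ S.T (db y) = S.T (db y')) := Iff.rfl
      rw [this]
      simp [k.K1]
  eTM := S.eTM
  eBM := by linarith [S.κ_nonneg, show S.κ = Real.log M - (S.eB - S.eL) from rfl]

end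

end Pool.Agent.Helper90.Kak
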