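import Pool.Agent.Helper90.Kak.HPar
import Pool.Agent.Helper8.Hyb.Top

/-!
# The two families of variables on the glued space coincide
-/

set_option autoImplicit false

namespace Pool.Agent.Helper90.Kak

open Pool.Agent.Helper8.Kak Pool.Agent.Helper6.Kak

variable {m M : ℕ} {G : Geo m M} (S : PSys G)

theorem VHY_eq : VHY S = Pool.Agent.Helper8.Hyb.VY S := by
  funext i
  cases i <;> rfl

/-- the costs of the parameters, for the family of `Helper8.Hyb.Top` -/
theorem parY {kk : ℝ} (h1 : 34 * (S.κ + 1) ≤ kk) (h2 : S.ι ≤ kk) :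
    Hy.Par (pY S) (Pool.Agent.Helper8.Hyb.VY S) S.eK S.eL S.eB S.eT S.eP S.eB2 (Real.log M)
      (Lam S) kk := by
  rw [← VHY_eq]
  exact par S h1 h2

end Pool.Agent.Helper90.Kak
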