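import Pool.Agent.Helper8.Kak.Space

/-!
# The glued space of the hybrid step: three lines in a chain, unconditioned junction heights

The base space carries a measure preserving map `σ`; a point `w` of the base space gives two lines
`l w`, `l (σ w)` through a common point at height `T w`. The space `Y Ω` has six coordinates:
`w0` (lines `l0`, `l1`, height `T0`), `wS` (height `S` on `l0`), `wR` (height `R` on `l1`),
`w1` (lines `l0`, `l2`, height `T1`), `wb`, `wb'` (heights `b`, `b'` on `l2`).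
-/

set_option autoImplicit false

namespace Pool.Agent.Helper90.Kak

open Finset Pool.Agent.Helper8.Kak

theorem law_congr {Ω A : Type} [Fintype Ω] {p : Ω → ℝ} (hp : ∀ ω, 0 ≤ p ω) {X X' : Ω → A}
    (h : ∀ ω, 0 < p ω → X ω = X' ω) (a : A) : law p X a = law p X' a := by
  classical
  unfold law
  refine Finset.sum_congr rfl fun ω _ => ?_
  rcases (hp ω).eq_or_lt with h0 | h0
  · rw [← h0]; simp
  · rw [h ω h0]

section

variable {Ω L G D : Type} [Fintype Ω]

/-- link over `(K, second line of the pair)` -/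
def fS (K : Setoid Ω) (l : Ω → L) (σ : Ω → Ω) : Ω → Quotient K × L :=
  fun ω => (Quotient.mk K ω, l (σ ω))

omit [Fintype Ω] in
theorem fS_eq {K : Setoid Ω} {l : Ω → L} {σ : Ω → Ω} {ω ω' : Ω} :
    fS K l σ ω = fS K l σ ω' ↔ K ω ω' ∧ l (σ ω) = l (σ ω') := by
  unfold fS
  rw [Prod.mk.injEq]
  exact and_congr_left fun _ => Quotient.eq

omit [Fintype Ω] in
theorem fS_fL {K : Setoid Ω} {l : Ω → L} {σ : Ω → Ω} {ω ω' : Ω} :
    fS K l σ ω = fL K l ω' ↔ K ω ω' ∧ l (σ ω) = l ω' := by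
  unfold fS fL
  rw [Prod.mk.injEq]
  exact and_congr_left fun _ => Quotient.eq

/-- the hypotheses on the pair structure -/
structure Pr (p : Ω → ℝ) (K : Setoid Ω) (σ : Ω → Ω) : Prop where
  hp : IsProb p
  mp : MP p p σ
  Kσ : ∀ ω, 0 < p ω → K ω (σ ω)

variable {p : Ω → ℝ} {K : Setoid Ω} {σ : Ω → Ω} (l : Ω → L)

theorem Pr.law (h : Pr p K σ) (c : Quotient K × L) :
    law p (fS K l σ) c = law p (fL K l) c := by
  rw [← h.mp.law_eq (fL K l) c]
  refine law_congr h.hp.1 (fun ω h0 => ?_) c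
  unfold fS fL
  simp only [Function.comp_apply]
  rw [Prod.mk.injEq]
  exact ⟨Quotient.sound (h.Kσ ω h0), rfl⟩

variable (p K σ)

/-- the pair, and a height on its second line -/
noncomputable def pU : Ω × Ω → ℝ := glue p p (fS K l σ) (fL K l)

/-- the pair, a height on its first line, a height on its second line -/
noncomputable def pX : Ω × (Ω × Ω) → ℝ := glue p (pU p K σ l) (fL K l) (fL K l ∘ Prod.fst)

/-- a second pair with the same first line, and a height on its second line -/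
noncomputable def pW : (Ω × (Ω × Ω)) × (Ω × Ω) → ℝ :=
  glue (pX p K σ l) (pU p K σ l) (fL K l ∘ (Prod.fst ∘ Prod.snd)) (fL K l ∘ Prod.fst)

/-- a further height on the last line -/
noncomputable def pYY : ((Ω × (Ω × Ω)) × (Ω × Ω)) × Ω → ℝ :=
  glue (pW p K σ l) p (fS K l σ ∘ (Prod.fst ∘ Prod.snd)) (fL K l)

variable {p K σ}

theorem U_prob (h : Pr p K σ) : IsProb (pU p K σ l) := glue_isProb h.hp h.hp (h.law l)

theorem U_fst (h : Pr p K σ) : MP (pU p K σ l) p Prod.fst := glue_fst h.hp.1 (h.law l)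

theorem U_snd (h : Pr p K σ) : MP (pU p K σ l) p Prod.snd := glue_snd h.hp.1 (h.law l)

theorem X_law (h : Pr p K σ) (c : Quotient K × L) :
    law p (fL K l) c = law (pU p K σ l) (fL K l ∘ Prod.fst) c :=
  ((U_fst l h).law_eq (fL K l) c).symm

theorem X_prob (h : Pr p K σ) : IsProb (pX p K σ l) :=
  glue_isProb h.hp (U_prob l h) (X_law l h)

theorem X_fst (h : Pr p K σ) : MP (pX p K σ l) p Prod.fst := glue_fst h.hp.1 (X_law l h)

theorem X_snd (h : Pr p K σ) : MP (pX p K σ l) (pU p K σ l) Prod.snd :=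
  glue_snd (U_prob l h).1 (X_law l h)

theorem X_w (h : Pr p K σ) : MP (pX p K σ l) p (Prod.fst ∘ Prod.snd) :=
  (X_snd l h).comp (U_fst l h)

theorem W_law (h : Pr p K σ) (c : Quotient K × L) :
    law (pX p K σ l) (fL K l ∘ (Prod.fst ∘ Prod.snd)) c
      = law (pU p K σ l) (fL K l ∘ Prod.fst) c := by
  rw [(X_w l h).law_eq, (U_fst l h).law_eq]

theorem W_prob (h : Pr p K σ) : IsProb (pW p K σ l) :=
  glue_isProb (X_prob l h) (U_prob l h) (W_law l h)

theorem W_fst (h : Pr p K σ) : MP (pW p K σ l) (pX p K σ l) Prod.fst :=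
  glue_fst (X_prob l h).1 (W_law l h)

theorem W_snd (h : Pr p K σ) : MP (pW p K σ l) (pU p K σ l) Prod.snd :=
  glue_snd (U_prob l h).1 (W_law l h)

theorem YY_law (h : Pr p K σ) (c : Quotient K × L) :
    law (pW p K σ l) (fS K l σ ∘ (Prod.fst ∘ Prod.snd)) c = law p (fL K l) c := by
  rw [((W_snd l h).comp (U_fst l h)).law_eq (fS K l σ) c, h.law]

theorem YY_prob (h : Pr p K σ) : IsProb (pYY p K σ l) :=
  glue_isProb (W_prob l h) h.hp (YY_law l h)

theorem YY_fst (h : Pr p K σ) : MP (pYY p K σ l) (pW p K σ l) Prod.fst :=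
  glue_fst (W_prob l h).1 (YY_law l h)

theorem YY_snd (h : Pr p K σ) : MP (pYY p K σ l) p Prod.snd := glue_snd h.hp.1 (YY_law l h)

end

/-- the sample space -/
abbrev YY (Ω : Type) : Type := ((Ω × (Ω × Ω)) × (Ω × Ω)) × Ω

section

variable {Ω L G D : Type} [Fintype Ω]

/-- height `S` on `l0` -/
def dS (y : YY Ω) : Ω := y.1.1.1
/-- the first pair: lines `l0`, `l1`, height `T0` -/
def d0 (y : YY Ω) : Ω := y.1.1.2.1
/-- height `R` on `l1` -/
def dR (y : YY Ω) : Ω := y.1.1.2.2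
/-- the second pair: lines `l0`, `l2`, height `T1` -/
def d1 (y : YY Ω) : Ω := y.1.2.1
/-- height `b` on `l2` -/
def db (y : YY Ω) : Ω := y.1.2.2
/-- height `b'` on `l2` -/
def db' (y : YY Ω) : Ω := y.2

variable {p : Ω → ℝ} {K : Setoid Ω} {σ : Ω → Ω} (l : Ω → L)

theorem MP_X (h : Pr p K σ) : MP (pYY p K σ l) (pX p K σ l) (fun y => y.1.1) :=
  (YY_fst l h).comp (W_fst l h)

theorem MP_U (h : Pr p K σ) : MP (pYY p K σ l) (pU p K σ l) (fun y => y.1.2) :=
  (YY_fst l h).comp (W_snd l h)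

theorem MP_dS (h : Pr p K σ) : MP (pYY p K σ l) p dS := (MP_X l h).comp (X_fst l h)

theorem MP_d0 (h : Pr p K σ) : MP (pYY p K σ l) p d0 :=
  (MP_X l h).comp ((X_snd l h).comp (U_fst l h))

theorem MP_dR (h : Pr p K σ) : MP (pYY p K σ l) p dR :=
  (MP_X l h).comp ((X_snd l h).comp (U_snd l h))

theorem MP_d1 (h : Pr p K σ) : MP (pYY p K σ l) p d1 := (MP_U l h).comp (U_fst l h)

theorem MP_db (h : Pr p K σ) : MP (pYY p K σ l) p db := (MP_U l h).comp (U_snd l h)

theorem MP_db' (h : Pr p K σ) : MP (pYY p K σ l) p db' := YY_snd l h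

/-- the first pair without its heights -/
theorem MP_U0 (h : Pr p K σ) : MP (pYY p K σ l) (pU p K σ l) (fun y => y.1.1.2) :=
  (MP_X l h).comp (X_snd l h)

/-- the relations that hold on the support -/
theorem links (h : Pr p K σ) {y : YY Ω} (hy : 0 < pYY p K σ l y) :
    (K (dS y) (d0 y) ∧ l (dS y) = l (d0 y)) ∧ (K (d0 y) (dR y) ∧ l (σ (d0 y)) = l (dR y)) ∧
    (K (d0 y) (d1 y) ∧ l (d0 y) = l (d1 y)) ∧ (K (d1 y) (db y) ∧ l (σ (d1 y)) = l (db y)) ∧
    (K (d1 y) (db' y) ∧ l (σ (d1 y)) = l (db' y)) := by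
  have h4 := (YY_prob l h).1
  have h3 := (W_prob l h).1
  have h2 := (X_prob l h).1
  have hy3 : 0 < pW p K σ l y.1 := (YY_fst l h).pos h4 hy
  have hyX : 0 < pX p K σ l y.1.1 := (W_fst l h).pos h3 hy3
  have hyU : 0 < pU p K σ l y.1.2 := (W_snd l h).pos h3 hy3
  have hyU0 : 0 < pU p K σ l y.1.1.2 := (X_snd l h).pos h2 hyX
  exact ⟨fL_eq.1 (glue_link hyX), fS_fL.1 (glue_link hyU0), fL_eq.1 (glue_link hy3),
    fS_fL.1 (glue_link hyU), fS_fL.1 (glue_link hy)⟩

/-- the symmetric projection: `T0` is a height of `l0` and `b` a height of `l2`, for the pair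
`(l0, l2)` -/
theorem MP_sym (h : Pr p K σ) : MP (pYY p K σ l) (pX p K σ l) (fun y => (d0 y, (d1 y, db y))) := by
  have hfun : MP (pW p K σ l) (pX p K σ l) (Prod.map (Prod.fst ∘ Prod.snd) id) :=
    glue_map (f' := fL K l) (g' := fL K l ∘ Prod.fst) (X_w l h) (MP_id (pU p K σ l)) rfl rfl
  exact (YY_fst l h).comp hfun

end

end Pool.Agent.Helper90.Kak
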