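import Pool.Agent.Helper6.Kak.Defs
import Pool.Agent.Helper90.Kak.Space

/-!
# The random variables of the hybrid step and their dependencies
-/

set_option autoImplicit false

namespace Pool.Agent.Helper90.Kak

open Finset Pool.Agent.Helper8.Kak Pool.Agent.Helper6.Kak

/-- the random variables: `tw = T1 + B` and `tz = b + c` are the heights of `w` and `z` -/
inductive V6 | K | l0 | l1 | l2 | T0 | T1 | S | R | b | b' | P0 | P1 | PS | PR | Pb | Pb' | B | c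
  | w | z | tw | tz
deriving DecidableEq

namespace Y6

open V6

/-- functional dependencies -/
def rules : List (V6 × List (Finset V6)) :=
  [(B, [{T0, T1, S, R}, {tw, T1}]), (T1, [{tw, B}]), (c, [{B, b', T1, b}, {tz, b}]),
   (b, [{tz, c}]), (tw, [{T1, B}]), (tz, [{b, c}]),
   (P0, [{l0, T0}, {l1, T0}]), (P1, [{l0, T1}, {l2, T1}]), (PS, [{l0, S}]), (PR, [{l1, R}]),
   (Pb, [{l2, b}]), (Pb', [{l2, b'}]),
   (w, [{l0, l1, T1, B}]), (z, [{l2, l1, b, c}])]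

end Y6

section

variable {m M : ℕ} {G : Geo m M} (S : PSys G)

theorem pr : Pr S.p S.K S.σ := ⟨S.hp, S.mp, S.Kσ⟩

/-- the glued law -/
noncomputable abbrev pY : YY S.Ω → ℝ := pYY S.p S.K S.σ S.l

theorem hpY : IsProb (pY S) := YY_prob S.l (pr S)

/-- relations between the coordinates of two points of the support -/
structure Lk (y y' : YY S.Ω) : Prop where
  KS : S.K (dS y) (dS y') ↔ S.K (d0 y) (d0 y')
  KR : S.K (dR y) (dR y') ↔ S.K (d0 y) (d0 y')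
  K1 : S.K (d1 y) (d1 y') ↔ S.K (d0 y) (d0 y')
  Kb : S.K (db y) (db y') ↔ S.K (d0 y) (d0 y')
  Kb' : S.K (db' y) (db' y') ↔ S.K (d0 y) (d0 y')
  Kσ0 : S.K (S.σ (d0 y)) (S.σ (d0 y')) ↔ S.K (d0 y) (d0 y')
  Kσ1 : S.K (S.σ (d1 y)) (S.σ (d1 y')) ↔ S.K (d0 y) (d0 y')
  lS : S.l (dS y) = S.l (d0 y)
  l1 : S.l (d1 y) = S.l (d0 y)
  lR : S.l (dR y) = S.l (S.σ (d0 y))
  lb : S.l (db y) = S.l (S.σ (d1 y))
  lb' : S.l (db' y) = S.l (S.σ (d1 y))
  t0 : S.T (S.σ (d0 y)) = S.T (d0 y)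
  t1 : S.T (S.σ (d1 y)) = S.T (d1 y)
  p0 : G.P (S.l (S.σ (d0 y))) (S.T (d0 y)) = G.P (S.l (d0 y)) (S.T (d0 y))
  p1 : G.P (S.l (S.σ (d1 y))) (S.T (d1 y)) = G.P (S.l (d0 y)) (S.T (d1 y))
  mS : S.l (dS y') = S.l (d0 y')
  m1 : S.l (d1 y') = S.l (d0 y')
  mR : S.l (dR y') = S.l (S.σ (d0 y'))
  mb : S.l (db y') = S.l (S.σ (d1 y'))
  mb' : S.l (db' y') = S.l (S.σ (d1 y'))
  u0 : S.T (S.σ (d0 y')) = S.T (d0 y')
  u1 : S.T (S.σ (d1 y')) = S.T (d1 y')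
  q0 : G.P (S.l (S.σ (d0 y'))) (S.T (d0 y')) = G.P (S.l (d0 y')) (S.T (d0 y'))
  q1 : G.P (S.l (S.σ (d1 y'))) (S.T (d1 y')) = G.P (S.l (d0 y')) (S.T (d1 y'))

theorem lk {y y' : YY S.Ω} (h : 0 < pY S y) (h' : 0 < pY S y') : Lk S y y' := by
  obtain ⟨⟨a1, a2⟩, ⟨a3, a4⟩, ⟨a5, a6⟩, ⟨a7, a8⟩, ⟨a9, a10⟩⟩ := links S.l (pr S) h
  obtain ⟨⟨b1, b2⟩, ⟨b3, b4⟩, ⟨b5, b6⟩, ⟨b7, b8⟩, ⟨b9, b10⟩⟩ := links S.l (pr S) h'
  have g0 : 0 < S.p (d0 y) := (MP_d0 S.l (pr S)).pos (hpY S).1 h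
  have g0' : 0 < S.p (d0 y') := (MP_d0 S.l (pr S)).pos (hpY S).1 h'
  have g1 : 0 < S.p (d1 y) := (MP_d1 S.l (pr S)).pos (hpY S).1 h
  have g1' : 0 < S.p (d1 y') := (MP_d1 S.l (pr S)).pos (hpY S).1 h'
  have k1 := Kcongr a5 b5
  refine ⟨Kcongr (S.K.iseqv.symm a1) (S.K.iseqv.symm b1), Kcongr a3 b3, k1,
    (Kcongr a7 b7).trans k1, (Kcongr a9 b9).trans k1,
    Kcongr (S.Kσ _ g0) (S.Kσ _ g0'), (Kcongr (S.Kσ _ g1) (S.Kσ _ g1')).trans k1,
    a2, a6.symm, a4.symm, a8.symm, a10.symm, S.Tσ _ g0, S.Tσ _ g1, S.Pσ _ g0, ?_,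
    b2, b6.symm, b4.symm, b8.symm, b10.symm, S.Tσ _ g0', S.Tσ _ g1', S.Pσ _ g0', ?_⟩
  · rw [S.Pσ _ g1, ← a6]
  · rw [S.Pσ _ g1', ← b6]

/-- the parameter `B` -/
noncomputable def vB (y : YY S.Ω) : ℤ :=
  mv (((S.T (dR y) : ℕ) : ℤ) - ((S.T (d0 y) : ℕ) : ℤ)) (S.T (dS y)) (S.T (d0 y)) (S.T (d1 y))

/-- the parameter `c` -/
noncomputable def vc (y : YY S.Ω) : ℤ := mv (vB S y) (S.T (db' y)) (S.T (d1 y)) (S.T (db y))

/-- the form `w` -/
noncomputable def vw (y : YY S.Ω) : Fin m → ℤ :=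
  cell G.δ (frm G.x G.v (S.l (d0 y)) (S.T (d1 y)) (vB S y) (G.v (S.l (S.σ (d0 y)))))

/-- the form `z` -/
noncomputable def vz (y : YY S.Ω) : Fin m → ℤ :=
  cell G.δ (frm G.x G.v (S.l (S.σ (d1 y))) (S.T (db y)) (vc S y) (G.v (S.l (S.σ (d0 y)))))

/-- the height of `w` -/
noncomputable def vtw (y : YY S.Ω) : ℤ := ((S.T (d1 y) : ℕ) : ℤ) + vB S y

/-- the height of `z` -/
noncomputable def vtz (y : YY S.Ω) : ℤ := ((S.T (db y) : ℕ) : ℤ) + vc S y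

/-- the random variables -/
noncomputable def VV : V6 → Setoid (YY S.Ω)
  | .K => Setoid.comap d0 S.K
  | .l0 => Setoid.ker (fun y => S.l (d0 y))
  | .l1 => Setoid.ker (fun y => S.l (S.σ (d0 y)))
  | .l2 => Setoid.ker (fun y => S.l (S.σ (d1 y)))
  | .T0 => Setoid.ker (fun y => S.T (d0 y))
  | .T1 => Setoid.ker (fun y => S.T (d1 y))
  | .S => Setoid.ker (fun y => S.T (dS y))
  | .R => Setoid.ker (fun y => S.T (dR y))
  | .b => Setoid.ker (fun y => S.T (db y))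
  | .b' => Setoid.ker (fun y => S.T (db' y))
  | .P0 => Setoid.ker (fun y => G.P (S.l (d0 y)) (S.T (d0 y)))
  | .P1 => Setoid.ker (fun y => G.P (S.l (d0 y)) (S.T (d1 y)))
  | .PS => Setoid.ker (fun y => G.P (S.l (d0 y)) (S.T (dS y)))
  | .PR => Setoid.ker (fun y => G.P (S.l (S.σ (d0 y))) (S.T (dR y)))
  | .Pb => Setoid.ker (fun y => G.P (S.l (S.σ (d1 y))) (S.T (db y)))
  | .Pb' => Setoid.ker (fun y => G.P (S.l (S.σ (d1 y))) (S.T (db' y)))
  | .B => Setoid.ker (vB S)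
  | .c => Setoid.ker (vc S)
  | .w => Setoid.ker (vw S)
  | .z => Setoid.ker (vz S)
  | .tw => Setoid.ker (vtw S)
  | .tz => Setoid.ker (vtz S)

@[simp] theorem VV_K (y y') : VV S .K y y' ↔ S.K (d0 y) (d0 y') := Iff.rfl
@[simp] theorem VV_l0 (y y') : VV S .l0 y y' ↔ S.l (d0 y) = S.l (d0 y') := Iff.rfl
@[simp] theorem VV_l1 (y y') : VV S .l1 y y' ↔ S.l (S.σ (d0 y)) = S.l (S.σ (d0 y')) := Iff.rfl
@[simp] theorem VV_l2 (y y') : VV S .l2 y y' ↔ S.l (S.σ (d1 y)) = S.l (S.σ (d1 y')) := Iff.rfl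
@[simp] theorem VV_T0 (y y') : VV S .T0 y y' ↔ S.T (d0 y) = S.T (d0 y') := Iff.rfl
@[simp] theorem VV_T1 (y y') : VV S .T1 y y' ↔ S.T (d1 y) = S.T (d1 y') := Iff.rfl
@[simp] theorem VV_S (y y') : VV S .S y y' ↔ S.T (dS y) = S.T (dS y') := Iff.rfl
@[simp] theorem VV_R (y y') : VV S .R y y' ↔ S.T (dR y) = S.T (dR y') := Iff.rfl
@[simp] theorem VV_b (y y') : VV S .b y y' ↔ S.T (db y) = S.T (db y') := Iff.rfl
@[simp] theorem VV_b' (y y') : VV S .b' y y' ↔ S.T (db' y) = S.T (db' y') := Iff.rfl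
@[simp] theorem VV_P0 (y y') : VV S .P0 y y' ↔
  G.P (S.l (d0 y)) (S.T (d0 y)) = G.P (S.l (d0 y')) (S.T (d0 y')) := Iff.rfl
@[simp] theorem VV_P1 (y y') : VV S .P1 y y' ↔
  G.P (S.l (d0 y)) (S.T (d1 y)) = G.P (S.l (d0 y')) (S.T (d1 y')) := Iff.rfl
@[simp] theorem VV_PS (y y') : VV S .PS y y' ↔
  G.P (S.l (d0 y)) (S.T (dS y)) = G.P (S.l (d0 y')) (S.T (dS y')) := Iff.rfl
@[simp] theorem VV_PR (y y') : VV S .PR y y' ↔
  G.P (S.l (S.σ (d0 y))) (S.T (dR y)) = G.P (S.l (S.σ (d0 y'))) (S.T (dR y')) := Iff.rfl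
@[simp] theorem VV_Pb (y y') : VV S .Pb y y' ↔
  G.P (S.l (S.σ (d1 y))) (S.T (db y)) = G.P (S.l (S.σ (d1 y'))) (S.T (db y')) := Iff.rfl
@[simp] theorem VV_Pb' (y y') : VV S .Pb' y y' ↔
  G.P (S.l (S.σ (d1 y))) (S.T (db' y)) = G.P (S.l (S.σ (d1 y'))) (S.T (db' y')) := Iff.rfl
@[simp] theorem VV_B (y y') : VV S .B y y' ↔ vB S y = vB S y' := Iff.rfl
@[simp] theorem VV_c (y y') : VV S .c y y' ↔ vc S y = vc S y' := Iff.rfl
@[simp] theorem VV_w (y y') : VV S .w y y' ↔ vw S y = vw S y' := Iff.rfl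
@[simp] theorem VV_z (y y') : VV S .z y y' ↔ vz S y = vz S y' := Iff.rfl
@[simp] theorem VV_tw (y y') : VV S .tw y y' ↔ vtw S y = vtw S y' := Iff.rfl
@[simp] theorem VV_tz (y y') : VV S .tz y y' ↔ vtz S y = vtz S y' := Iff.rfl

theorem valid6 : Valid (pY S) (VV S) Y6.rules := by
  intro r hr D hD y y' hy hy' h
  have k := lk S hy hy'
  simp only [Y6.rules, List.mem_cons, List.not_mem_nil, or_false] at hr
  rcases hr with rfl | rfl | rfl | rfl | rfl | rfl | rfl | rfl | rfl | rfl | rfl | rfl | rfl | rfl <;>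
    simp only [List.mem_cons, List.not_mem_nil, or_false] at hD
  · rcases hD with rfl | rfl <;>
      simp only [Finset.mem_insert, Finset.mem_singleton, forall_eq_or_imp, forall_eq, VV_T0,
        VV_T1, VV_S, VV_R, VV_tw] at h ⊢
    · obtain ⟨h1, h2, h3, h4⟩ := h
      rw [VV_B]
      unfold vB
      rw [h1, h2, h3, h4]
    · obtain ⟨h1, h2⟩ := h
      rw [VV_B]
      unfold vtw at h1
      rw [h2] at h1
      linarith
  · subst hD
    simp only [Finset.mem_insert, Finset.mem_singleton, forall_eq_or_imp, forall_eq, VV_tw,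
      VV_B] at h ⊢
    obtain ⟨h1, h2⟩ := h
    rw [VV_T1]
    unfold vtw at h1
    rw [h2] at h1
    exact Fin.ext (by exact_mod_cast add_right_cancel h1)
  · rcases hD with rfl | rfl <;>
      simp only [Finset.mem_insert, Finset.mem_singleton, forall_eq_or_imp, forall_eq, VV_B,
        VV_b', VV_T1, VV_b, VV_tz] at h ⊢
    · obtain ⟨h1, h2, h3, h4⟩ := h
      rw [VV_c]
      unfold vc
      rw [h1, h2, h3, h4]
    · obtain ⟨h1, h2⟩ := h
      rw [VV_c]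
      unfold vtz at h1
      rw [h2] at h1
      linarith
  · subst hD
    simp only [Finset.mem_insert, Finset.mem_singleton, forall_eq_or_imp, forall_eq, VV_tz,
      VV_c] at h ⊢
    obtain ⟨h1, h2⟩ := h
    rw [VV_b]
    unfold vtz at h1
    rw [h2] at h1
    exact Fin.ext (by exact_mod_cast add_right_cancel h1)
  · subst hD
    simp only [Finset.mem_insert, Finset.mem_singleton, forall_eq_or_imp, forall_eq, VV_T1,
      VV_B] at h ⊢
    obtain ⟨h1, h2⟩ := h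
    rw [VV_tw]
    unfold vtw
    rw [h1, h2]
  · subst hD
    simp only [Finset.mem_insert, Finset.mem_singleton, forall_eq_or_imp, forall_eq, VV_b,
      VV_c] at h ⊢
    obtain ⟨h1, h2⟩ := h
    rw [VV_tz]
    unfold vtz
    rw [h1, h2]
  · rcases hD with rfl | rfl <;>
      simp only [Finset.mem_insert, Finset.mem_singleton, forall_eq_or_imp, forall_eq, VV_l0,
        VV_T0, VV_l1] at h ⊢
    · rw [VV_P0, h.1, h.2]
    · rw [VV_P0, ← k.p0, ← k.q0, h.1, h.2]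
  · rcases hD with rfl | rfl <;>
      simp only [Finset.mem_insert, Finset.mem_singleton, forall_eq_or_imp, forall_eq, VV_l0,
        VV_T1, VV_l2] at h ⊢
    · rw [VV_P1, h.1, h.2]
    · rw [VV_P1, ← k.p1, ← k.q1, h.1, h.2]
  · subst hD
    simp only [Finset.mem_insert, Finset.mem_singleton, forall_eq_or_imp, forall_eq, VV_l0,
      VV_S] at h ⊢
    rw [VV_PS, h.1, h.2]
  · subst hD
    simp only [Finset.mem_insert, Finset.mem_singleton, forall_eq_or_imp, forall_eq, VV_l1,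
      VV_R] at h ⊢
    rw [VV_PR, h.1, h.2]
  · subst hD
    simp only [Finset.mem_insert, Finset.mem_singleton, forall_eq_or_imp, forall_eq, VV_l2,
      VV_b] at h ⊢
    rw [VV_Pb, h.1, h.2]
  · subst hD
    simp only [Finset.mem_insert, Finset.mem_singleton, forall_eq_or_imp, forall_eq, VV_l2,
      VV_b'] at h ⊢
    rw [VV_Pb', h.1, h.2]
  · subst hD
    simp only [Finset.mem_insert, Finset.mem_singleton, forall_eq_or_imp, forall_eq, VV_l0, VV_l1,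
      VV_T1, VV_B] at h ⊢
    obtain ⟨h1, h2, h3, h4⟩ := h
    rw [VV_w]
    unfold vw
    rw [h1, h2, h3, h4]
  · subst hD
    simp only [Finset.mem_insert, Finset.mem_singleton, forall_eq_or_imp, forall_eq, VV_l2, VV_l1,
      VV_b, VV_c] at h ⊢
    obtain ⟨h1, h2, h3, h4⟩ := h
    rw [VV_z]
    unfold vz
    rw [h1, h2, h3, h4]

end

end Pool.Agent.Helper90.Kak
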