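import Pool.Agent.Helper8.Kak.L1Cost
import Pool.Agent.Helper90.Kak.SysY

/-!
# Entropies of the glued space of the hybrid step
-/

set_option autoImplicit false

namespace Pool.Agent.Helper90.Kak

open Finset Pool.Agent.Helper8.Kak Pool.Agent.Helper6.Kak

namespace Y6

open V6

/-- entropies of the families of variables of the glued space -/
structure Base {Ω : Type} [Fintype Ω] (p : Ω → ℝ) (V : V6 → Setoid Ω)
    (eK eL eB eT eP eB2 lM Lam : ℝ) : Prop where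
  hp : IsProb p
  hr : Valid p V rules
  hK : HH p V {K} = eK
  hL0 : HH p V {K, l0} = eL
  hL1 : HH p V {K, l1} = eL
  hL2 : HH p V {K, l2} = eL
  h00 : HH p V {K, l0, T0} = eB
  h01 : HH p V {K, l0, T1} = eB
  h0S : HH p V {K, l0, S} = eB
  h10 : HH p V {K, l1, T0} = eB
  h1R : HH p V {K, l1, R} = eB
  h21 : HH p V {K, l2, T1} = eB
  h2b : HH p V {K, l2, b} = eB
  h2b' : HH p V {K, l2, b'} = eB
  hT0 : HH p V {K, T0} = eT
  hT1 : HH p V {K, T1} = eT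
  hTS : HH p V {K, S} = eT
  hTR : HH p V {K, R} = eT
  hTb : HH p V {K, b} = eT
  hTb' : HH p V {K, b'} = eT
  hP0 : HH p V {K, T0, P0} = eP
  hP1 : HH p V {K, T1, P1} = eP
  hPS : HH p V {K, S, PS} = eP
  hPR : HH p V {K, R, PR} = eP
  hPb : HH p V {K, b, Pb} = eP
  hPb' : HH p V {K, b', Pb'} = eP
  h010 : HH p V {K, l0, l1, T0} = eB2
  h021 : HH p V {K, l0, l2, T1} = eB2
  tot : 2 * eB2 + 4 * eB - 5 * eL ≤ HH p V {K, l0, l1, l2, T0, T1, S, R, b, b'}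
  lam1 : HH p V {K, S, R, PS, PR} - HH p V {K, S, R} = Lam
  lam2 : HH p V {K, T0, b, P0, Pb} - HH p V {K, T0, b} = Lam
  eTM : eT - eK ≤ lM

end Y6

section

variable {m M : ℕ} {G : Geo m M} (S : PSys G)

/-- heights of the pair -/
def q2 : Setoid (S.Ω × (S.Ω × S.Ω)) :=
  Setoid.comap (fun a => a.2.1) S.K ⊓ (Setoid.ker (fun a => S.T a.1) ⊓
    Setoid.ker (fun a => S.T a.2.2))

/-- heights and points of the pair -/
noncomputable def q1 : Setoid (S.Ω × (S.Ω × S.Ω)) :=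
  q2 S ⊓ (Setoid.ker (fun a => G.P (S.l a.1) (S.T a.1)) ⊓
    Setoid.ker (fun a => G.P (S.l a.2.2) (S.T a.2.2)))

/-- entropy of the pair of points of the two lines of a pair, at random heights -/
noncomputable def Lam : ℝ :=
  Ent (pX S.p S.K S.σ S.l) (q1 S) - Ent (pX S.p S.K S.σ S.l) (q2 S)

theorem ker_fL : Ent S.p (Setoid.ker (fL S.K S.l)) = S.eL :=
  Ent_congr' S.hp fun _ _ _ _ => fL_eq

/-- entropy of the second line of the pair -/
theorem ent_l1 : Ent S.p (S.K ⊓ Setoid.ker (fun ω => S.l (S.σ ω))) = S.eL := by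
  unfold Sys.eL
  rw [← S.mp.Ent_eq (S.K ⊓ Setoid.ker S.l)]
  refine Ent_congr' S.hp fun ω ω' h h' => ?_
  have := Kcongr (S.Kσ _ h) (S.Kσ _ h')
  exact ⟨fun g => ⟨this.2 g.1, g.2⟩, fun g => ⟨this.1 g.1, g.2⟩⟩

theorem ker_fS : Ent S.p (Setoid.ker (fS S.K S.l S.σ)) = S.eL := by
  rw [← ent_l1]
  exact Ent_congr' S.hp fun _ _ _ _ => fS_eq

/-- everything in the base space -/
def rB : Setoid S.Ω := S.K ⊓ Setoid.ker S.l ⊓ Setoid.ker S.T

/-- the pair and the height -/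
def rB2 : Setoid S.Ω :=
  S.K ⊓ Setoid.ker S.l ⊓ Setoid.ker (fun ω => S.l (S.σ ω)) ⊓ Setoid.ker S.T

theorem rB_fL {a a' : S.Ω} (h : rB S a a') : fL S.K S.l a = fL S.K S.l a' := fL_eq.2 h.1

theorem rB2_fL {a a' : S.Ω} (h : rB2 S a a') : fL S.K S.l a = fL S.K S.l a' := fL_eq.2 h.1.1

theorem rB2_fS {a a' : S.Ω} (h : rB2 S a a') : fS S.K S.l S.σ a = fS S.K S.l S.σ a' :=
  fS_eq.2 ⟨h.1.1.1, h.1.2⟩

/-- everything in `pU` -/
def rU : Setoid (S.Ω × S.Ω) := Setoid.comap Prod.fst (rB2 S) ⊓ Setoid.comap Prod.snd (rB S)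

theorem ent_rU : Ent (pU S.p S.K S.σ S.l) (rU S) = S.eB2 + S.eB - S.eL := by
  have h := Ent_glue S.hp S.hp (f := fS S.K S.l S.σ) (g := fL S.K S.l) ((pr S).law S.l) (rB2 S)
    (rB S) (fun _ _ _ _ h => rB2_fS S h) (fun _ _ _ _ h => rB_fL S h)
  rw [ker_fS] at h
  exact h

/-- everything in `pX` -/
def rX : Setoid (S.Ω × (S.Ω × S.Ω)) :=
  Setoid.comap Prod.fst (rB S) ⊓ Setoid.comap Prod.snd (rU S)

theorem ent_rX : Ent (pX S.p S.K S.σ S.l) (rX S) = S.eB2 + 2 * S.eB - 2 * S.eL := by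
  have h := Ent_glue S.hp (U_prob S.l (pr S)) (f := fL S.K S.l) (g := fL S.K S.l ∘ Prod.fst)
    (X_law S.l (pr S)) (rB S) (rU S) (fun _ _ _ _ h => rB_fL S h)
    (fun _ _ _ _ h => rB2_fL S h.1)
  rw [ker_fL, ent_rU] at h
  have e : Ent (pX S.p S.K S.σ S.l) (rX S) = S.eB + (S.eB2 + S.eB - S.eL) - S.eL := h
  rw [e]; ring

/-- everything in `pW` -/
def rW : Setoid ((S.Ω × (S.Ω × S.Ω)) × (S.Ω × S.Ω)) :=
  Setoid.comap Prod.fst (rX S) ⊓ Setoid.comap Prod.snd (rU S)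

theorem ent_rW : Ent (pW S.p S.K S.σ S.l) (rW S) = 2 * S.eB2 + 3 * S.eB - 4 * S.eL := by
  have h := Ent_glue (X_prob S.l (pr S)) (U_prob S.l (pr S))
    (f := fL S.K S.l ∘ (Prod.fst ∘ Prod.snd)) (g := fL S.K S.l ∘ Prod.fst)
    (W_law S.l (pr S)) (rX S) (rU S) (fun _ _ _ _ h => rB2_fL S h.2.1)
    (fun _ _ _ _ h => rB2_fL S h.1)
  have e3 : Ent (pX S.p S.K S.σ S.l) (Setoid.ker (fL S.K S.l ∘ (Prod.fst ∘ Prod.snd)))
      = S.eL := by
    rw [← ker_fL, ← (X_w S.l (pr S)).Ent_eq]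
    rfl
  rw [e3, ent_rX, ent_rU] at h
  have e : Ent (pW S.p S.K S.σ S.l) (rW S)
    = (S.eB2 + 2 * S.eB - 2 * S.eL) + (S.eB2 + S.eB - S.eL) - S.eL := h
  rw [e]; ring

/-- everything in `pYY` -/
def rYY : Setoid (YY S.Ω) := Setoid.comap Prod.fst (rW S) ⊓ Setoid.comap Prod.snd (rB S)

theorem ent_rYY : Ent (pY S) (rYY S) = 2 * S.eB2 + 4 * S.eB - 5 * S.eL := by
  have h := Ent_glue (W_prob S.l (pr S)) S.hp
    (f := fS S.K S.l S.σ ∘ (Prod.fst ∘ Prod.snd)) (g := fL S.K S.l)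
    (YY_law S.l (pr S)) (rW S) (rB S) (fun _ _ _ _ h => rB2_fS S h.2.1)
    (fun _ _ _ _ h => rB_fL S h)
  have e3 : Ent (pW S.p S.K S.σ S.l) (Setoid.ker (fS S.K S.l S.σ ∘ (Prod.fst ∘ Prod.snd)))
      = S.eL := by
    rw [← ker_fS, ← ((W_snd S.l (pr S)).comp (U_fst S.l (pr S))).Ent_eq]
    rfl
  rw [e3, ent_rW] at h
  have e : Ent (pY S) (rYY S) = (2 * S.eB2 + 3 * S.eB - 4 * S.eL) + S.eB - S.eL := h
  rw [e]; ring

theorem rYY_iff (y y' : YY S.Ω) : rYY S y y' ↔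
    ((rB S (dS y) (dS y') ∧ (rB2 S (d0 y) (d0 y') ∧ rB S (dR y) (dR y'))) ∧
      (rB2 S (d1 y) (d1 y') ∧ rB S (db y) (db y'))) ∧ rB S (db' y) (db' y') := Iff.rfl

theorem rB_iff (a a' : S.Ω) : rB S a a' ↔ (S.K a a' ∧ S.l a = S.l a') ∧ S.T a = S.T a' := Iff.rfl

theorem rB2_iff (a a' : S.Ω) : rB2 S a a' ↔
    ((S.K a a' ∧ S.l a = S.l a') ∧ S.l (S.σ a) = S.l (S.σ a')) ∧ S.T a = S.T a' := Iff.rfl

/-- the composition with `σ` -/
theorem MP_d0σ : MP (pY S) S.p (fun y => S.σ (d0 y)) := (MP_d0 S.l (pr S)).comp S.mp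

theorem MP_d1σ : MP (pY S) S.p (fun y => S.σ (d1 y)) := (MP_d1 S.l (pr S)).comp S.mp

theorem base : Y6.Base (pY S) (VV S) S.eK S.eL S.eB S.eT S.eP S.eB2 (Real.log M) (Lam S) where
  hp := hpY S
  hr := valid6 S
  hK := HH_coord (hpY S) (MP_d0 S.l (pr S)) _ _ S.K fun y y' h h' => by
    simp
  hL0 := HH_coord (hpY S) (MP_d0 S.l (pr S)) _ _ (S.K ⊓ Setoid.ker S.l) fun y y' h h' => by
    simp [Setoid.inf_iff_and, Setoid.ker_def]
  hL1 := HH_coord (hpY S) (MP_d0σ S) _ _ (S.K ⊓ Setoid.ker S.l) fun y y' h h' => by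
    have k := lk S h h'
    simp [Setoid.inf_iff_and, Setoid.ker_def, k.Kσ0]
  hL2 := HH_coord (hpY S) (MP_d1σ S) _ _ (S.K ⊓ Setoid.ker S.l) fun y y' h h' => by
    have k := lk S h h'
    simp [Setoid.inf_iff_and, Setoid.ker_def, k.Kσ1]
  h00 := HH_coord (hpY S) (MP_d0 S.l (pr S)) _ _ (S.K ⊓ Setoid.ker S.l ⊓ Setoid.ker S.T)
    fun y y' h h' => by
    simp [Setoid.inf_iff_and, Setoid.ker_def, and_assoc]
  h01 := HH_coord (hpY S) (MP_d1 S.l (pr S)) _ _ (S.K ⊓ Setoid.ker S.l ⊓ Setoid.ker S.T)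
    fun y y' h h' => by
    have k := lk S h h'
    simp [Setoid.inf_iff_and, Setoid.ker_def, k.K1, k.l1, k.m1, and_assoc]
  h0S := HH_coord (hpY S) (MP_dS S.l (pr S)) _ _ (S.K ⊓ Setoid.ker S.l ⊓ Setoid.ker S.T)
    fun y y' h h' => by
    have k := lk S h h'
    simp [Setoid.inf_iff_and, Setoid.ker_def, k.KS, k.lS, k.mS, and_assoc]
  h10 := HH_coord (hpY S) (MP_d0σ S) _ _ (S.K ⊓ Setoid.ker S.l ⊓ Setoid.ker S.T)
    fun y y' h h' => by
    have k := lk S h h'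
    simp [Setoid.inf_iff_and, Setoid.ker_def, k.Kσ0, k.t0, k.u0, and_assoc]
  h1R := HH_coord (hpY S) (MP_dR S.l (pr S)) _ _ (S.K ⊓ Setoid.ker S.l ⊓ Setoid.ker S.T)
    fun y y' h h' => by
    have k := lk S h h'
    simp [Setoid.inf_iff_and, Setoid.ker_def, k.KR, k.lR, k.mR, and_assoc]
  h21 := HH_coord (hpY S) (MP_d1σ S) _ _ (S.K ⊓ Setoid.ker S.l ⊓ Setoid.ker S.T)
    fun y y' h h' => by
    have k := lk S h h'
    simp [Setoid.inf_iff_and, Setoid.ker_def, k.Kσ1, k.t1, k.u1, and_assoc]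
  h2b := HH_coord (hpY S) (MP_db S.l (pr S)) _ _ (S.K ⊓ Setoid.ker S.l ⊓ Setoid.ker S.T)
    fun y y' h h' => by
    have k := lk S h h'
    simp [Setoid.inf_iff_and, Setoid.ker_def, k.Kb, k.lb, k.mb, and_assoc]
  h2b' := HH_coord (hpY S) (MP_db' S.l (pr S)) _ _ (S.K ⊓ Setoid.ker S.l ⊓ Setoid.ker S.T)
    fun y y' h h' => by
    have k := lk S h h'
    simp [Setoid.inf_iff_and, Setoid.ker_def, k.Kb', k.lb', k.mb', and_assoc]
  hT0 := HH_coord (hpY S) (MP_d0 S.l (pr S)) _ _ (S.K ⊓ Setoid.ker S.T)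
    fun y y' h h' => by
    simp [Setoid.inf_iff_and, Setoid.ker_def]
  hT1 := HH_coord (hpY S) (MP_d1 S.l (pr S)) _ _ (S.K ⊓ Setoid.ker S.T)
    fun y y' h h' => by
    have k := lk S h h'
    simp [Setoid.inf_iff_and, Setoid.ker_def, k.K1]
  hTS := HH_coord (hpY S) (MP_dS S.l (pr S)) _ _ (S.K ⊓ Setoid.ker S.T)
    fun y y' h h' => by
    have k := lk S h h'
    simp [Setoid.inf_iff_and, Setoid.ker_def, k.KS]
  hTR := HH_coord (hpY S) (MP_dR S.l (pr S)) _ _ (S.K ⊓ Setoid.ker S.T)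
    fun y y' h h' => by
    have k := lk S h h'
    simp [Setoid.inf_iff_and, Setoid.ker_def, k.KR]
  hTb := HH_coord (hpY S) (MP_db S.l (pr S)) _ _ (S.K ⊓ Setoid.ker S.T)
    fun y y' h h' => by
    have k := lk S h h'
    simp [Setoid.inf_iff_and, Setoid.ker_def, k.Kb]
  hTb' := HH_coord (hpY S) (MP_db' S.l (pr S)) _ _ (S.K ⊓ Setoid.ker S.T)
    fun y y' h h' => by
    have k := lk S h h'
    simp [Setoid.inf_iff_and, Setoid.ker_def, k.Kb']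
  hP0 := HH_coord (hpY S) (MP_d0 S.l (pr S)) _ _
    (S.K ⊓ Setoid.ker S.T ⊓ Setoid.ker (fun ω => G.P (S.l ω) (S.T ω))) fun y y' h h' => by
    simp [Setoid.inf_iff_and, Setoid.ker_def, and_assoc]
  hP1 := HH_coord (hpY S) (MP_d1 S.l (pr S)) _ _
    (S.K ⊓ Setoid.ker S.T ⊓ Setoid.ker (fun ω => G.P (S.l ω) (S.T ω))) fun y y' h h' => by
    have k := lk S h h'
    simp [Setoid.inf_iff_and, Setoid.ker_def, k.K1, k.l1, k.m1, and_assoc]
  hPS := HH_coord (hpY S) (MP_dS S.l (pr S)) _ _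
    (S.K ⊓ Setoid.ker S.T ⊓ Setoid.ker (fun ω => G.P (S.l ω) (S.T ω))) fun y y' h h' => by
    have k := lk S h h'
    simp [Setoid.inf_iff_and, Setoid.ker_def, k.KS, k.lS, k.mS, and_assoc]
  hPR := HH_coord (hpY S) (MP_dR S.l (pr S)) _ _
    (S.K ⊓ Setoid.ker S.T ⊓ Setoid.ker (fun ω => G.P (S.l ω) (S.T ω))) fun y y' h h' => by
    have k := lk S h h'
    simp [Setoid.inf_iff_and, Setoid.ker_def, k.KR, k.lR, k.mR, and_assoc]
  hPb := HH_coord (hpY S) (MP_db S.l (pr S)) _ _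
    (S.K ⊓ Setoid.ker S.T ⊓ Setoid.ker (fun ω => G.P (S.l ω) (S.T ω))) fun y y' h h' => by
    have k := lk S h h'
    simp [Setoid.inf_iff_and, Setoid.ker_def, k.Kb, k.lb, k.mb, and_assoc]
  hPb' := HH_coord (hpY S) (MP_db' S.l (pr S)) _ _
    (S.K ⊓ Setoid.ker S.T ⊓ Setoid.ker (fun ω => G.P (S.l ω) (S.T ω))) fun y y' h h' => by
    have k := lk S h h'
    simp [Setoid.inf_iff_and, Setoid.ker_def, k.Kb', k.lb', k.mb', and_assoc]
  h010 := HH_coord (hpY S) (MP_d0 S.l (pr S)) _ _ (rB2 S) fun y y' h h' => by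
    simp [rB2_iff, and_assoc]
  h021 := HH_coord (hpY S) (MP_d1 S.l (pr S)) _ _ (rB2 S) fun y y' h h' => by
    have k := lk S h h'
    simp [rB2_iff, k.K1, k.l1, k.m1, and_assoc]
  tot := by
    rw [← ent_rYY]
    unfold HH
    refine Ent_mono' (hpY S) fun y y' h h' h1 => ?_
    have k := lk S h h'
    rw [inf_rel] at h1
    simp only [Finset.mem_insert, Finset.mem_singleton, forall_eq_or_imp, forall_eq, VV_K, VV_l0,
      VV_l1, VV_l2, VV_T0, VV_T1, VV_S, VV_R, VV_b, VV_b'] at h1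
    obtain ⟨g1, g2, g3, g4, g5, g6, g7, g8, g9, g10⟩ := h1
    simp only [rYY_iff, rB_iff, rB2_iff, k.KS, k.K1, k.KR, k.Kb, k.Kb', k.lS, k.l1, k.lR, k.lb,
      k.lb', k.mS, k.m1, k.mR, k.mb, k.mb', g1, g2, g3, g4, g5, g6, g7, g8, g9, g10, and_self]
  lam1 := by
    unfold Lam
    congr 1
    · refine HH_coord (hpY S) (MP_X S.l (pr S)) _ _ (q1 S) fun y y' h h' => ?_
      have k := lk S h h'
      have : q1 S y.1.1 y'.1.1 ↔ (S.K (d0 y) (d0 y') ∧ S.T (dS y) = S.T (dS y') ∧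
        S.T (dR y) = S.T (dR y')) ∧
        (G.P (S.l (dS y)) (S.T (dS y)) = G.P (S.l (dS y')) (S.T (dS y')) ∧
        G.P (S.l (dR y)) (S.T (dR y)) = G.P (S.l (dR y')) (S.T (dR y'))) := Iff.rfl
      rw [this]
      simp [k.lS, k.mS, k.lR, k.mR, and_assoc]
    · refine HH_coord (hpY S) (MP_X S.l (pr S)) _ _ (q2 S) fun y y' h h' => ?_
      have : q2 S y.1.1 y'.1.1 ↔ (S.K (d0 y) (d0 y') ∧ S.T (dS y) = S.T (dS y') ∧
        S.T (dR y) = S.T (dR y')) := Iff.rfl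
      rw [this]
      simp
  lam2 := by
    unfold Lam
    congr 1
    · refine HH_coord (hpY S) (MP_sym S.l (pr S)) _ _ (q1 S) fun y y' h h' => ?_
      have k := lk S h h'
      have : q1 S (d0 y, (d1 y, db y)) (d0 y', (d1 y', db y')) ↔
        (S.K (d1 y) (d1 y') ∧ S.T (d0 y) = S.T (d0 y') ∧ S.T (db y) = S.T (db y')) ∧
        (G.P (S.l (d0 y)) (S.T (d0 y)) = G.P (S.l (d0 y')) (S.T (d0 y')) ∧
        G.P (S.l (db y)) (S.T (db y)) = G.P (S.l (db y')) (S.T (db y'))) := Iff.rfl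
      rw [this]
      simp [k.K1, k.lb, k.mb, and_assoc]
    · refine HH_coord (hpY S) (MP_sym S.l (pr S)) _ _ (q2 S) fun y y' h h' => ?_
      have k := lk S h h'
      have : q2 S (d0 y, (d1 y, db y)) (d0 y', (d1 y', db y')) ↔
        (S.K (d1 y) (d1 y') ∧ S.T (d0 y) = S.T (d0 y') ∧ S.T (db y) = S.T (db y')) := Iff.rfl
      rw [this]
      simp [k.K1]
  eTM := S.eTM

end

end Pool.Agent.Helper90.Kak
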