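import Pool.Agent.Helper90.Kak.HBase
import Pool.Agent.Helper90.Kak.Col
import Pool.Agent.Helper6.Kak.Pair
import Pool.Agent.Helper81.Kak.Z3

/-!
# Costs of the parameters and of the collinear points on the glued space `YY`
-/

set_option autoImplicit false

namespace Pool.Agent.Helper90.Kak

open Finset Pool.Agent.Helper8.Kak Pool.Agent.Helper6.Kak
open Pool.Agent.Helper89.KakGeo hiding Ex_mono M_pos

section bk

open VH

variable {Ω : Type} [Fintype Ω] {p : Ω → ℝ} {V : VH → Setoid Ω}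
  {eK eL eB eT eP eB2 LM Lam : ℝ}

theorem inc (h : Hy.Base p V eK eL eB eT eP eB2 LM Lam) (A A' B B' : Finset VH)
    (hB' : B' ⊆ cl Hy.rules (A' ∪ B)) (hA : A ⊆ cl Hy.rules A' ∩ cl Hy.rules B) :
    HH p V B' - HH p V B ≤ HH p V A' - HH p V A := HH_INC h.hp h.hr A A' B B' hB' hA

theorem mn (h : Hy.Base p V eK eL eB eT eP eB2 LM Lam) (A B : Finset VH)
    (hA : A ⊆ cl Hy.rules B) : HH p V A ≤ HH p V B := HH_MN h.hp h.hr A B hA

/-- upper bound for the two pairs -/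
theorem up2 (h : Hy.Base p V eK eL eB eT eP eB2 LM Lam) :
    HH p V {K, l0, l1, l2, T0, T1} ≤ 2 * eB2 - eL := by
  have i1 := inc h {K, l0} {K, l0, T1} {K, l0, l1, T0} {K, l0, l1, T0, T1}
    (by decide +kernel) (by decide +kernel)
  have i2 := inc h {K, l0, T1} {K, l0, l2, T1} {K, l0, l1, T0, T1} {K, l0, l1, l2, T0, T1}
    (by decide +kernel) (by decide +kernel)
  linarith [h.hL0, h.h01, h.h010, h.h021]

/-- the height `S` is near uniform given all the other free heights -/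
theorem frS (h : Hy.Base p V eK eL eB eT eP eB2 LM Lam) :
    eB - eL ≤ HH p V {K, l0, l1, l2, T0, T1, R, b, b', S}
      - HH p V {K, l0, l1, l2, T0, T1, R, b, b'} := by
  have i0 := up2 h
  have i1 := inc h {K, l1} {K, l1, R} {K, l0, l1, l2, T0, T1} {K, l0, l1, l2, T0, T1, R}
    (by decide +kernel) (by decide +kernel)
  have i2 := inc h {K, l2} {K, l2, b} {K, l0, l1, l2, T0, T1, R} {K, l0, l1, l2, T0, T1, R, b}
    (by decide +kernel) (by decide +kernel)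
  have i3 := inc h {K, l2} {K, l2, b'} {K, l0, l1, l2, T0, T1, R, b}
    {K, l0, l1, l2, T0, T1, R, b, b'} (by decide +kernel) (by decide +kernel)
  have i4 := mn h {K, l0, l1, l2, T0, T1, S, R, b, b'} {K, l0, l1, l2, T0, T1, R, b, b', S}
    (by decide +kernel)
  linarith [h.hL1, h.h1R, h.hL2, h.h2b, h.h2b', h.tot]

theorem frR (h : Hy.Base p V eK eL eB eT eP eB2 LM Lam) :
    eB - eL ≤ HH p V {K, l0, l1, l2, T0, T1, S, b, b', R}
      - HH p V {K, l0, l1, l2, T0, T1, S, b, b'} := by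
  have i0 := up2 h
  have i1 := inc h {K, l0} {K, l0, S} {K, l0, l1, l2, T0, T1} {K, l0, l1, l2, T0, T1, S}
    (by decide +kernel) (by decide +kernel)
  have i2 := inc h {K, l2} {K, l2, b} {K, l0, l1, l2, T0, T1, S} {K, l0, l1, l2, T0, T1, S, b}
    (by decide +kernel) (by decide +kernel)
  have i3 := inc h {K, l2} {K, l2, b'} {K, l0, l1, l2, T0, T1, S, b}
    {K, l0, l1, l2, T0, T1, S, b, b'} (by decide +kernel) (by decide +kernel)
  have i4 := mn h {K, l0, l1, l2, T0, T1, S, R, b, b'} {K, l0, l1, l2, T0, T1, S, b, b', R}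
    (by decide +kernel)
  linarith [h.hL0, h.h0S, h.hL2, h.h2b, h.h2b', h.tot]

theorem frb' (h : Hy.Base p V eK eL eB eT eP eB2 LM Lam) :
    eB - eL ≤ HH p V {K, l0, l1, l2, T0, T1, S, R, b, b'}
      - HH p V {K, l0, l1, l2, T0, T1, S, R, b} := by
  have i0 := up2 h
  have i1 := inc h {K, l0} {K, l0, S} {K, l0, l1, l2, T0, T1} {K, l0, l1, l2, T0, T1, S}
    (by decide +kernel) (by decide +kernel)
  have i2 := inc h {K, l1} {K, l1, R} {K, l0, l1, l2, T0, T1, S} {K, l0, l1, l2, T0, T1, S, R}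
    (by decide +kernel) (by decide +kernel)
  have i3 := inc h {K, l2} {K, l2, b} {K, l0, l1, l2, T0, T1, S, R}
    {K, l0, l1, l2, T0, T1, S, R, b} (by decide +kernel) (by decide +kernel)
  linarith [h.hL0, h.h0S, h.hL1, h.h1R, h.hL2, h.h2b, h.tot]

theorem frb (h : Hy.Base p V eK eL eB eT eP eB2 LM Lam) :
    eB - eL ≤ HH p V {K, l0, l1, l2, T0, T1, S, R, b', b}
      - HH p V {K, l0, l1, l2, T0, T1, S, R, b'} := by
  have i0 := up2 h
  have i1 := inc h {K, l0} {K, l0, S} {K, l0, l1, l2, T0, T1} {K, l0, l1, l2, T0, T1, S}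
    (by decide +kernel) (by decide +kernel)
  have i2 := inc h {K, l1} {K, l1, R} {K, l0, l1, l2, T0, T1, S} {K, l0, l1, l2, T0, T1, S, R}
    (by decide +kernel) (by decide +kernel)
  have i3 := inc h {K, l2} {K, l2, b'} {K, l0, l1, l2, T0, T1, S, R}
    {K, l0, l1, l2, T0, T1, S, R, b'} (by decide +kernel) (by decide +kernel)
  have i4 := mn h {K, l0, l1, l2, T0, T1, S, R, b, b'} {K, l0, l1, l2, T0, T1, S, R, b', b}
    (by decide +kernel)
  linarith [h.hL0, h.h0S, h.hL1, h.h1R, h.hL2, h.h2b', h.tot]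

/-- the height `T1` is near uniform given the first pair with its heights -/
theorem frT1 (h : Hy.Base p V eK eL eB eT eP eB2 LM Lam) :
    eB - eL ≤ HH p V {K, l0, l1, T0, S, R, T1} - HH p V {K, l0, l1, T0, S, R} := by
  have i1 := inc h {K, l0} {K, l0, S} {K, l0, l1, T0} {K, l0, l1, T0, S}
    (by decide +kernel) (by decide +kernel)
  have i2 := inc h {K, l1} {K, l1, R} {K, l0, l1, T0, S} {K, l0, l1, T0, S, R}
    (by decide +kernel) (by decide +kernel)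
  have i3 := inc h {K, l0, T1} {K, l0, l2, T1} {K, l0, l1, T0, S, R, T1}
    {K, l0, l1, T0, S, R, T1, l2} (by decide +kernel) (by decide +kernel)
  have i4 := inc h {K, l2} {K, l2, b} {K, l0, l1, T0, S, R, T1, l2}
    {K, l0, l1, T0, S, R, T1, l2, b} (by decide +kernel) (by decide +kernel)
  have i5 := inc h {K, l2} {K, l2, b'} {K, l0, l1, T0, S, R, T1, l2, b}
    {K, l0, l1, l2, T0, T1, S, R, b, b'} (by decide +kernel) (by decide +kernel)
  linarith [h.hL0, h.h0S, h.hL1, h.h1R, h.hL2, h.h2b, h.h2b', h.h010, h.h01, h.h021, h.tot]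

end bk

section

variable {m M : ℕ} {G : Geo m M} (S : PSys G)

theorem ldH (A A' : Finset VH) (i j : VH) (T' T : YY S.Ω → Fin M)
    (hi : VHY S i = Setoid.ker T') (hj : ∀ y y', VHY S j y y' → T y = T y') (hjA : j ∈ A)
    (hA' : A' = insert i A) (hd : S.eB - S.eL ≤ HH (pY S) (VHY S) A' - HH (pY S) (VHY S) A) :
    Ex (pY S) (fun y => ld (T' y) (T y)) ≤ 5 * (S.κ + 1) :=
  (ld_le (hpY S) T' T hi hj hjA hA' hd).trans S.deficit

theorem ldS0 : Ex (pY S) (fun y => ld (S.T (dS y)) (S.T (d0 y))) ≤ 5 * (S.κ + 1) := by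
  have h1 : VHY S VH.S = Setoid.ker (fun y => S.T (dS y)) := rfl
  have h2 : ∀ y y', VHY S VH.T0 y y' → (fun y => S.T (d0 y)) y = (fun y => S.T (d0 y)) y' :=
    fun _ _ h => h
  have h3 : VH.T0 ∈ ({.K, .l0, .l1, .l2, .T0, .T1, .R, .b, .b'} : Finset VH) := by decide +kernel
  have h4 : ({.K, .l0, .l1, .l2, .T0, .T1, .R, .b, .b', .S} : Finset VH) = insert VH.S {.K, .l0, .l1, .l2, .T0, .T1, .R, .b, .b'} := by
    decide +kernel
  exact ldH S _ _ _ _ _ _ h1 h2 h3 h4 (frS (baseH S))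

theorem ldS1 : Ex (pY S) (fun y => ld (S.T (dS y)) (S.T (d1 y))) ≤ 5 * (S.κ + 1) := by
  have h1 : VHY S VH.S = Setoid.ker (fun y => S.T (dS y)) := rfl
  have h2 : ∀ y y', VHY S VH.T1 y y' → (fun y => S.T (d1 y)) y = (fun y => S.T (d1 y)) y' :=
    fun _ _ h => h
  have h3 : VH.T1 ∈ ({.K, .l0, .l1, .l2, .T0, .T1, .R, .b, .b'} : Finset VH) := by decide +kernel
  have h4 : ({.K, .l0, .l1, .l2, .T0, .T1, .R, .b, .b', .S} : Finset VH) = insert VH.S {.K, .l0, .l1, .l2, .T0, .T1, .R, .b, .b'} := by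
    decide +kernel
  exact ldH S _ _ _ _ _ _ h1 h2 h3 h4 (frS (baseH S))

theorem ldSR : Ex (pY S) (fun y => ld (S.T (dS y)) (S.T (dR y))) ≤ 5 * (S.κ + 1) := by
  have h1 : VHY S VH.S = Setoid.ker (fun y => S.T (dS y)) := rfl
  have h2 : ∀ y y', VHY S VH.R y y' → (fun y => S.T (dR y)) y = (fun y => S.T (dR y)) y' :=
    fun _ _ h => h
  have h3 : VH.R ∈ ({.K, .l0, .l1, .l2, .T0, .T1, .R, .b, .b'} : Finset VH) := by decide +kernel
  have h4 : ({.K, .l0, .l1, .l2, .T0, .T1, .R, .b, .b', .S} : Finset VH) = insert VH.S {.K, .l0, .l1, .l2, .T0, .T1, .R, .b, .b'} := by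
    decide +kernel
  exact ldH S _ _ _ _ _ _ h1 h2 h3 h4 (frS (baseH S))

theorem ldR0 : Ex (pY S) (fun y => ld (S.T (dR y)) (S.T (d0 y))) ≤ 5 * (S.κ + 1) := by
  have h1 : VHY S VH.R = Setoid.ker (fun y => S.T (dR y)) := rfl
  have h2 : ∀ y y', VHY S VH.T0 y y' → (fun y => S.T (d0 y)) y = (fun y => S.T (d0 y)) y' :=
    fun _ _ h => h
  have h3 : VH.T0 ∈ ({.K, .l0, .l1, .l2, .T0, .T1, .S, .b, .b'} : Finset VH) := by decide +kernel
  have h4 : ({.K, .l0, .l1, .l2, .T0, .T1, .S, .b, .b', .R} : Finset VH) = insert VH.R {.K, .l0, .l1, .l2, .T0, .T1, .S, .b, .b'} := by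
    decide +kernel
  exact ldH S _ _ _ _ _ _ h1 h2 h3 h4 (frR (baseH S))

theorem ldb1 : Ex (pY S) (fun y => ld (S.T (db' y)) (S.T (d1 y))) ≤ 5 * (S.κ + 1) := by
  have h1 : VHY S VH.b' = Setoid.ker (fun y => S.T (db' y)) := rfl
  have h2 : ∀ y y', VHY S VH.T1 y y' → (fun y => S.T (d1 y)) y = (fun y => S.T (d1 y)) y' :=
    fun _ _ h => h
  have h3 : VH.T1 ∈ ({.K, .l0, .l1, .l2, .T0, .T1, .S, .R, .b} : Finset VH) := by decide +kernel
  have h4 : ({.K, .l0, .l1, .l2, .T0, .T1, .S, .R, .b, .b'} : Finset VH) = insert VH.b' {.K, .l0, .l1, .l2, .T0, .T1, .S, .R, .b} := by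
    decide +kernel
  exact ldH S _ _ _ _ _ _ h1 h2 h3 h4 (frb' (baseH S))

theorem ldbb : Ex (pY S) (fun y => ld (S.T (db' y)) (S.T (db y))) ≤ 5 * (S.κ + 1) := by
  have h1 : VHY S VH.b' = Setoid.ker (fun y => S.T (db' y)) := rfl
  have h2 : ∀ y y', VHY S VH.b y y' → (fun y => S.T (db y)) y = (fun y => S.T (db y)) y' :=
    fun _ _ h => h
  have h3 : VH.b ∈ ({.K, .l0, .l1, .l2, .T0, .T1, .S, .R, .b} : Finset VH) := by decide +kernel
  have h4 : ({.K, .l0, .l1, .l2, .T0, .T1, .S, .R, .b, .b'} : Finset VH) = insert VH.b' {.K, .l0, .l1, .l2, .T0, .T1, .S, .R, .b} := by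
    decide +kernel
  exact ldH S _ _ _ _ _ _ h1 h2 h3 h4 (frb' (baseH S))

theorem ld10 : Ex (pY S) (fun y => ld (S.T (d1 y)) (S.T (d0 y))) ≤ 5 * (S.κ + 1) := by
  have h1 : VHY S VH.T1 = Setoid.ker (fun y => S.T (d1 y)) := rfl
  have h2 : ∀ y y', VHY S VH.T0 y y' → (fun y => S.T (d0 y)) y = (fun y => S.T (d0 y)) y' :=
    fun _ _ h => h
  have h3 : VH.T0 ∈ ({.K, .l0, .l1, .T0, .S, .R} : Finset VH) := by decide +kernel
  have h4 : ({.K, .l0, .l1, .T0, .S, .R, .T1} : Finset VH) = insert VH.T1 {.K, .l0, .l1, .T0, .S, .R} := by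
    decide +kernel
  exact ldH S _ _ _ _ _ _ h1 h2 h3 h4 (frT1 (baseH S))

theorem upB : Ex (pY S) (fun y => up M (vB S y)) ≤ 8 * (S.κ + 1) := by
  have h := S.κ_nonneg
  have h2 := log2_le
  have h4 := log4_le
  have e : Ex (pY S) (fun y => up M (vB S y)) ≤
      Ex (pY S) (fun y => ld (S.T (dS y)) (S.T (d0 y)) + (Real.log 2 + Real.log 4)) := by
    refine Ex_mono (hpY S) fun y => ?_
    have h5 := up_mv (((S.T (dR y) : ℕ) : ℤ) - ((S.T (d0 y) : ℕ) : ℤ)) (S.T (dS y)) (S.T (d0 y))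
      (S.T (d1 y))
    have h6 := up_sub (S.T (dR y)) (S.T (d0 y))
    unfold vB
    linarith
  rw [Ex_add, Ex_const (hpY S)] at e
  linarith [ldS0 S]

theorem dnB : Ex (pY S) (fun y => dn M (vB S y)) ≤ 18 * (S.κ + 1) := by
  have h := S.κ_nonneg
  have h2 := log2_le
  have h8 := log8_le
  have e : Ex (pY S) (fun y => dn M (vB S y)) ≤
      Ex (pY S) (fun y => ld (S.T (dR y)) (S.T (d0 y)) + (ld (S.T (dS y)) (S.T (d0 y)) +
        (ld (S.T (dS y)) (S.T (d1 y)) + (Real.log 2 + Real.log 8)))) := by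
    refine Ex_mono (hpY S) fun y => ?_
    have h5 := dn_mv (((S.T (dR y) : ℕ) : ℤ) - ((S.T (d0 y) : ℕ) : ℤ)) (S.T (dS y)) (S.T (d0 y))
      (S.T (d1 y))
    have h6 := dn_sub (S.T (dR y)) (S.T (d0 y))
    unfold vB
    linarith
  rw [Ex_add, Ex_add, Ex_add, Ex_const (hpY S)] at e
  linarith [ldS0 S, ldS1 S, ldR0 S]

theorem upc : Ex (pY S) (fun y => up M (vc S y)) ≤ 15 * (S.κ + 1) := by
  have h := S.κ_nonneg
  have h4 := log4_le
  have e : Ex (pY S) (fun y => up M (vc S y)) ≤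
      Ex (pY S) (fun y => up M (vB S y) + (ld (S.T (db' y)) (S.T (d1 y)) + Real.log 4)) := by
    refine Ex_mono (hpY S) fun y => ?_
    have h5 := up_mv (vB S y) (S.T (db' y)) (S.T (d1 y)) (S.T (db y))
    unfold vc
    linarith
  rw [Ex_add, Ex_add, Ex_const (hpY S)] at e
  linarith [upB S, ldb1 S]

theorem dnc : Ex (pY S) (fun y => dn M (vc S y)) ≤ 31 * (S.κ + 1) := by
  have h := S.κ_nonneg
  have h8 := log8_le
  have e : Ex (pY S) (fun y => dn M (vc S y)) ≤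
      Ex (pY S) (fun y => dn M (vB S y) + (ld (S.T (db' y)) (S.T (d1 y)) +
        (ld (S.T (db' y)) (S.T (db y)) + Real.log 8))) := by
    refine Ex_mono (hpY S) fun y => ?_
    have h5 := dn_mv (vB S y) (S.T (db' y)) (S.T (d1 y)) (S.T (db y))
    unfold vc
    linarith
  rw [Ex_add, Ex_add, Ex_add, Ex_const (hpY S)] at e
  linarith [dnB S, ldb1 S, ldbb S]

/-- `t + c` has log-size at most that of `c` -/
theorem up_addT {M : ℕ} (t : Fin M) (c : ℤ) : up M (((t : ℕ) : ℤ) + c) ≤ up M c + Real.log 2 := by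
  have hM1 := one_le_M t
  have hM0 : (0 : ℝ) < M := by linarith
  have ht : (((t : ℕ) : ℝ)) ≤ M := by exact_mod_cast t.2.le
  have ht0 : (0 : ℝ) ≤ ((t : ℕ) : ℝ) := Nat.cast_nonneg _
  unfold up
  rw [← Real.log_mul (by positivity) (by norm_num)]
  refine Real.log_le_log (by positivity) ?_
  have h1 : |((((t : ℕ) : ℤ) + c : ℤ) : ℝ)| ≤ M + |(c : ℝ)| := by
    push_cast
    refine (abs_add_le _ _).trans ?_
    rw [abs_of_nonneg ht0]
    linarith
  have h2 : |((((t : ℕ) : ℤ) + c : ℤ) : ℝ)| / M ≤ (M + |(c : ℝ)|) / M :=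
    div_le_div_of_nonneg_right h1 hM0.le
  have h3 : ((M : ℝ) + |(c : ℝ)|) / M = 1 + |(c : ℝ)| / M := by field_simp
  have h4 : 0 ≤ |(c : ℝ)| / M := by positivity
  rw [h3] at h2
  linarith

theorem uptw : Ex (pY S) (fun y => up M (vtw S y)) ≤ 9 * (S.κ + 1) := by
  have h := S.κ_nonneg
  have e : Ex (pY S) (fun y => up M (vtw S y)) ≤
      Ex (pY S) (fun y => up M (vB S y) + Real.log 2) :=
    Ex_mono (hpY S) fun y => up_addT _ _
  rw [Ex_add, Ex_const (hpY S)] at e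
  linarith [upB S, log2_le]

theorem uptz : Ex (pY S) (fun y => up M (vtz S y)) ≤ 16 * (S.κ + 1) := by
  have h := S.κ_nonneg
  have e : Ex (pY S) (fun y => up M (vtz S y)) ≤
      Ex (pY S) (fun y => up M (vc S y) + Real.log 2) :=
    Ex_mono (hpY S) fun y => up_addT _ _
  rw [Ex_add, Ex_const (hpY S)] at e
  linarith [upc S, log2_le]

/-- `b'` is far from `tw` -/
theorem dnb'w : Ex (pY S) (fun y => dn M (((S.T (db' y) : ℕ) : ℤ) - vtw S y)) ≤ 5 * (S.κ + 1) := by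
  have h0 := S.κ_nonneg
  have h := Pool.Agent.Helper81.Kak.closeZ (hpY S)
    (({.K, .l0, .l1, .l2, .T0, .T1, .S, .R, .b} : Finset VH).inf (VHY S))
    (fun y => S.T (db' y)) (vtw S) (fun y y' _ _ hr => by
      rw [inf_rel] at hr
      simp only [Finset.mem_insert, Finset.mem_singleton, forall_eq_or_imp, forall_eq, VH_K,
        VH_l0, VH_l1, VH_l2, VH_T0, VH_T1, VH_S, VH_R, VH_b] at hr
      obtain ⟨-, -, -, -, g0, g1, gS, gR, -⟩ := hr
      unfold vtw vB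
      rw [g0, g1, gS, gR])
  have e := cost_eq (p := pY S) (V := VHY S) {.K, .l0, .l1, .l2, .T0, .T1, .S, .R, .b}
    {.K, .l0, .l1, .l2, .T0, .T1, .S, .R, .b, .b'} .b' (by decide +kernel)
  have e1 : VHY S .b' = Setoid.ker (fun y => S.T (db' y)) := rfl
  rw [e1] at e
  have hf := frb' (baseH S)
  rw [e] at hf
  have hk : S.κ = Real.log M - (S.eB - S.eL) := rfl
  linarith [log5_le, log2_le]

/-- `R` from `tw` -/
theorem cost1 : HH (pY S) (VHY S) {.tw, .S, .T0, .T1, .R} - HH (pY S) (VHY S) {.tw, .S, .T0, .T1}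
    ≤ 15 * (S.κ + 1) := by
  have hκ := S.κ_nonneg
  refine cost_le (VHY S) _ _ VH.R (by decide +kernel) _ fun r hr => ?_
  simp only [Finset.mem_insert, Finset.mem_singleton, forall_eq_or_imp, forall_eq, VH_tw, VH_S,
    VH_T0, VH_T1] at hr
  have h0 : CE (pY S) (VHY S VH.R) r ≤ CE (pY S)
      (Setoid.ker (fun y => ((S.T (dR y) : ℕ) : ℤ) - ((S.T (d0 y) : ℕ) : ℤ))) r := by
    refine CE_mono (hpY S) fun y y' _ _ g1 g2 => ?_
    rw [Setoid.ker_def] at g1
    rw [VH_R]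
    have g3 : ((S.T (dR y) : ℕ) : ℤ) = ((S.T (dR y') : ℕ) : ℤ) := by
      rw [(hr y y' g2).2.2.1] at g1
      linarith
    exact Fin.ext (by exact_mod_cast g3)
  have h1 := CE_unmv (hpY S) r
    (fun y => ((S.T (dR y) : ℕ) : ℤ) - ((S.T (d0 y) : ℕ) : ℤ)) (fun y => S.T (dS y))
    (fun y => S.T (d0 y)) (fun y => S.T (d1 y))
    (fun y y' _ _ g => ⟨(hr y y' g).2.1, (hr y y' g).2.2.1, (hr y y' g).2.2.2,
      vB_eq S (hr y y' g).2.2.2 (hr y y' g).1⟩)
  have e : Ex (pY S) (fun y => 2 * up M (((S.T (dR y) : ℕ) : ℤ) - ((S.T (d0 y) : ℕ) : ℤ)) +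
      ld (S.T (dS y)) (S.T (d0 y)) + ld (S.T (dS y)) (S.T (d1 y))) ≤
      Ex (pY S) (fun y => ld (S.T (dS y)) (S.T (d0 y)) + (ld (S.T (dS y)) (S.T (d1 y))
        + 2 * Real.log 2)) := by
    refine Ex_mono (hpY S) fun y => ?_
    have h6 := up_sub (S.T (dR y)) (S.T (d0 y))
    linarith
  have e2 : Ex (pY S) (fun y => ld (S.T (dS y)) (S.T (d0 y)) + (ld (S.T (dS y)) (S.T (d1 y))
        + 2 * Real.log 2)) = Ex (pY S) (fun y => ld (S.T (dS y)) (S.T (d0 y)))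
        + (Ex (pY S) (fun y => ld (S.T (dS y)) (S.T (d1 y))) + 2 * Real.log 2) := by
    rw [Ex_add, Ex_add, Ex_const (hpY S)]
  linarith [ldS0 S, ldS1 S, log2_le, log5_le]

theorem cost2 : HH (pY S) (VHY S) {.K, .tw} - HH (pY S) (VHY S) {.K}
    ≤ Real.log M + 20 * (S.κ + 1) := by
  have hκ := S.κ_nonneg
  refine cost_le (VHY S) _ _ VH.tw (by decide +kernel) _ fun r _ => ?_
  have h1 := CE_param (hpY S) r (vtw S) (Pool.Agent.Helper8.Kak.M_pos G)
  have h3 : CE (pY S) (VHY S VH.tw) r = CE (pY S) (Setoid.ker (vtw S)) r := rfl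
  rw [h3]
  linarith [uptw S, log3_le]

theorem costz : HH (pY S) (VHY S) {.K, .tz} - HH (pY S) (VHY S) {.K}
    ≤ Real.log M + 34 * (S.κ + 1) := by
  have hκ := S.κ_nonneg
  refine cost_le (VHY S) _ _ VH.tz (by decide +kernel) _ fun r _ => ?_
  have h1 := CE_param (hpY S) r (vtz S) (Pool.Agent.Helper8.Kak.M_pos G)
  have h3 : CE (pY S) (VHY S VH.tz) r = CE (pY S) (Setoid.ker (vtz S)) r := rfl
  rw [h3]
  linarith [uptz S, log3_le]

/-- `tw` from `tz` -/
theorem costU : HH (pY S) (VHY S) {.b', .b, .T1, .tz, .tw} - HH (pY S) (VHY S) {.b', .b, .T1, .tz}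
    ≤ 34 * (S.κ + 1) := by
  have hκ := S.κ_nonneg
  refine cost_le (VHY S) _ _ VH.tw (by decide +kernel) _ fun r hr => ?_
  simp only [Finset.mem_insert, Finset.mem_singleton, forall_eq_or_imp, forall_eq, VH_b', VH_b,
    VH_T1, VH_tz] at hr
  have h0 : CE (pY S) (VHY S VH.tw) r ≤ CE (pY S) (Setoid.ker (vB S)) r := by
    refine CE_mono (hpY S) fun y y' _ _ g1 g2 => ?_
    rw [Setoid.ker_def] at g1
    rw [VH_tw]
    unfold vtw
    rw [g1, (hr y y' g2).2.2.1]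
  have h2 := CE_unmv (hpY S) r (vB S)
      (fun y => S.T (db' y)) (fun y => S.T (d1 y)) (fun y => S.T (db y))
      (fun y y' _ _ g => ⟨(hr y y' g).1, (hr y y' g).2.2.1, (hr y y' g).2.1,
        vc_eq S (hr y y' g).2.1 (hr y y' g).2.2.2⟩)
  rw [Ex_add, Ex_add, Ex_smul] at h2
  linarith [upB S, ldb1 S, ldbb S, log5_le]

/-- `T1` from `tw` -/
theorem cost9 : HH (pY S) (VHY S) {.tw, .S, .T0, .R, .T1} - HH (pY S) (VHY S) {.tw, .S, .T0, .R}
    ≤ 7 * (S.κ + 1) := by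
  have hκ := S.κ_nonneg
  refine cost_le (VHY S) _ _ VH.T1 (by decide +kernel) _ fun r hr => ?_
  simp only [Finset.mem_insert, Finset.mem_singleton, forall_eq_or_imp, forall_eq, VH_tw, VH_S,
    VH_T0, VH_R] at hr
  have h := CE_hgt (hpY S) r (fun y => S.T (d1 y)) (fun y => 1 / dst (S.T (dS y)) (S.T (dR y)))
    (fun y => le_trans zero_le_one (one_le_inv_dst _ _))
    (fun y y' _ _ g => by simp only [(hr y y' g).2.1, (hr y y' g).2.2.2]) ?_
  · have h3 : CE (pY S) (VHY S VH.T1) r = CE (pY S) (Setoid.ker (fun y => S.T (d1 y))) r := rfl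
    rw [h3]
    refine h.trans ?_
    have e : Ex (pY S) (fun y => Real.log (2 * (1 / dst (S.T (dS y)) (S.T (dR y))) + 1)) ≤
        Ex (pY S) (fun y => ld (S.T (dS y)) (S.T (dR y)) + Real.log 3) := by
      refine Ex_mono (hpY S) fun y => ?_
      have h1 : 1 ≤ 1 / dst (S.T (dS y)) (S.T (dR y)) := one_le_inv_dst _ _
      unfold ld
      rw [← Real.log_mul (by positivity) (by norm_num)]
      refine Real.log_le_log (by positivity) ?_
      linarith
    rw [Ex_add, Ex_const (hpY S)] at e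
    linarith [ldSR S, log3_le]
  · intro y y' hy hy' g
    obtain ⟨g1, g2, g3, g4⟩ := hr y y' g
    -- abbreviations
    have hM1 := one_le_M (S.T (dS y))
    have hM0 : (0 : ℝ) < M := by linarith
    have b1 : ((S.T (d1 y) : ℕ) : ℝ) < M := by exact_mod_cast (S.T (d1 y)).2
    have b2 : ((S.T (d1 y') : ℕ) : ℝ) < M := by exact_mod_cast (S.T (d1 y')).2
    have b3 : (0 : ℝ) ≤ ((S.T (d1 y) : ℕ) : ℝ) := Nat.cast_nonneg _
    have b4 : (0 : ℝ) ≤ ((S.T (d1 y') : ℕ) : ℝ) := Nat.cast_nonneg _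
    have habs : |((S.T (d1 y) : ℕ) : ℝ) - ((S.T (d1 y') : ℕ) : ℝ)| ≤ M := by
      rw [abs_le]; constructor <;> linarith
    by_cases hSR : S.T (dS y) = S.T (dR y)
    · rw [hSR, inv_dst_self]
      exact habs
    · rw [dst_eq_of_ne hSR]
      have hSRpos : 0 < |ht (S.T (dS y)) - ht (S.T (dR y))| :=
        abs_pos.2 (sub_ne_zero.2 (ht_ne_of_ne hSR))
      rw [le_div_iff₀ hSRpos]
      unfold vtw vB at g1
      rw [← g2, ← g3, ← g4] at g1
      by_cases hS0 : S.T (dS y) = S.T (d0 y)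
      · -- then `B = 0`
        have e1 : ∀ t : Fin M, mv (((S.T (dR y) : ℕ) : ℤ) - ((S.T (d0 y) : ℕ) : ℤ)) (S.T (dS y))
            (S.T (d0 y)) t = 0 := by
          intro t
          unfold mv
          rw [hS0, sub_self, div_zero, mul_zero, Int.floor_zero]
        rw [e1, e1, add_zero, add_zero] at g1
        have e2 : ((S.T (d1 y) : ℕ) : ℝ) = ((S.T (d1 y') : ℕ) : ℝ) := by exact_mod_cast g1
        rw [e2, sub_self, abs_zero, zero_mul]
        norm_num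
      · set c : ℝ := (((((S.T (dR y) : ℕ) : ℤ) - ((S.T (d0 y) : ℕ) : ℤ) : ℤ)) : ℝ) with hc
        set σ := ht (S.T (dS y)) with hσ
        set τ := ht (S.T (d0 y)) with hτ
        have hne : σ - τ ≠ 0 := sub_ne_zero.2 (ht_ne_of_ne hS0)
        have hστ : |σ - τ| ≤ 1 := ht_diff _ _
        -- the two floors
        have f1 := Int.floor_le (c * ((σ - ht (S.T (d1 y))) / (σ - τ)))
        have f2 := Int.lt_floor_add_one (c * ((σ - ht (S.T (d1 y))) / (σ - τ)))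
        have f3 := Int.floor_le (c * ((σ - ht (S.T (d1 y'))) / (σ - τ)))
        have f4 := Int.lt_floor_add_one (c * ((σ - ht (S.T (d1 y'))) / (σ - τ)))
        have g5 : ((S.T (d1 y) : ℕ) : ℝ) + (⌊c * ((σ - ht (S.T (d1 y))) / (σ - τ))⌋ : ℝ)
            = ((S.T (d1 y') : ℕ) : ℝ) + (⌊c * ((σ - ht (S.T (d1 y'))) / (σ - τ))⌋ : ℝ) := by
          have := congrArg (fun z : ℤ => (z : ℝ)) g1
          simp only [mv] at this
          push_cast at this
          rw [hc]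
          push_cast
          exact this
        have t1 : ht (S.T (d1 y)) = ((S.T (d1 y) : ℕ) : ℝ) / M := rfl
        have t2 : ht (S.T (d1 y')) = ((S.T (d1 y') : ℕ) : ℝ) / M := rfl
        have hc2 : c = M * (ht (S.T (dR y)) - τ) := by
          rw [hc, hτ]
          unfold ht
          push_cast
          field_simp
        -- exact difference of the real heights
        have key : (((S.T (d1 y) : ℕ) : ℝ) - ((S.T (d1 y') : ℕ) : ℝ)) * (σ - ht (S.T (dR y)))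
            = (σ - τ) * ((((S.T (d1 y) : ℕ) : ℝ) + c * ((σ - ht (S.T (d1 y))) / (σ - τ)))
              - (((S.T (d1 y') : ℕ) : ℝ) + c * ((σ - ht (S.T (d1 y'))) / (σ - τ)))) := by
          rw [hc2, t1, t2]
          field_simp
          ring
        have h5 : |(((S.T (d1 y) : ℕ) : ℝ) + c * ((σ - ht (S.T (d1 y))) / (σ - τ)))
              - (((S.T (d1 y') : ℕ) : ℝ) + c * ((σ - ht (S.T (d1 y'))) / (σ - τ)))| ≤ 1 := by
          rw [abs_le]
          constructor <;> linarith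
        rw [← abs_mul, key, abs_mul]
        exact mul_le_one₀ hστ (abs_nonneg _) h5

/-- `PS, PR, w` are collinear -/
theorem cost5 : HH (pY S) (VHY S) {.PS, .PR, .S, .R, .tw, .w}
    - HH (pY S) (VHY S) {.PS, .PR, .S, .R, .tw} ≤ m * (50 * (S.κ + 1)) := by
  have hκ := S.κ_nonneg
  refine cost_le (VHY S) _ _ VH.w (by decide +kernel) _ fun r hr => ?_
  simp only [Finset.mem_insert, Finset.mem_singleton, forall_eq_or_imp, forall_eq, VH_PS, VH_PR,
    VH_S, VH_R, VH_tw] at hr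
  have hc : ∀ y : YY S.Ω, ((S.T (d0 y) : ℕ) : ℤ) + (((S.T (dR y) : ℕ) : ℤ) - ((S.T (d0 y) : ℕ) : ℤ))
      = ((S.T (dR y) : ℕ) : ℤ) := fun y => by ring
  have h2 := CE_col (hpY S) G.hδ G.hδ1 G.hM G.hx G.hv r
    (fun y => S.l (d0 y)) (fun y => S.l (S.σ (d0 y))) (fun y => S.l (S.σ (d0 y)))
    (fun y => ((S.T (dR y) : ℕ) : ℤ) - ((S.T (d0 y) : ℕ) : ℤ)) (fun y => S.T (dS y))
    (fun y => S.T (d0 y)) (fun y => S.T (d1 y)) (fun y hy => (lk S hy hy).p0.symm)
    (fun y y' _ _ g => by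
      obtain ⟨g1, g2, g3, g4, g5⟩ := hr y y' g
      refine ⟨g3, by rw [hc, hc, g4], g5, g1, ?_⟩
      have e : ∀ y : YY S.Ω, frm G.x G.v (S.l (S.σ (d0 y))) (S.T (d0 y))
          (((S.T (dR y) : ℕ) : ℤ) - ((S.T (d0 y) : ℕ) : ℤ)) (G.v (S.l (S.σ (d0 y))))
          = pnt G.x G.v (S.l (S.σ (d0 y))) (S.T (dR y)) := by
        intro y
        funext i
        unfold frm pnt ht
        push_cast
        ring
      rw [e, e]
      exact g2)
  refine le_trans h2 (mul_le_mul_of_nonneg_left ?_ (Nat.cast_nonneg m))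
  have e1 : Ex (pY S) (fun y => dn M (((S.T (dS y) : ℕ) : ℤ) - (((S.T (d0 y) : ℕ) : ℤ)
      + (((S.T (dR y) : ℕ) : ℤ) - ((S.T (d0 y) : ℕ) : ℤ))))) ≤ 5 * (S.κ + 1) + Real.log 2 := by
    have e2 : Ex (pY S) (fun y => dn M (((S.T (dS y) : ℕ) : ℤ) - (((S.T (d0 y) : ℕ) : ℤ)
      + (((S.T (dR y) : ℕ) : ℤ) - ((S.T (d0 y) : ℕ) : ℤ))))) ≤
        Ex (pY S) (fun y => ld (S.T (dS y)) (S.T (dR y)) + Real.log 2) := by
      refine Ex_mono (hpY S) fun y => ?_
      rw [hc]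
      exact dn_sub _ _
    rw [Ex_add, Ex_const (hpY S)] at e2
    linarith [ldSR S]
  have e3 : Ex (pY S) (fun y => up M (((S.T (d0 y) : ℕ) : ℤ)
      + (((S.T (dR y) : ℕ) : ℤ) - ((S.T (d0 y) : ℕ) : ℤ)))) ≤ Real.log 2 := by
    have e4 : Ex (pY S) (fun y => up M (((S.T (d0 y) : ℕ) : ℤ)
      + (((S.T (dR y) : ℕ) : ℤ) - ((S.T (d0 y) : ℕ) : ℤ)))) ≤ Ex (pY S) (fun _ => Real.log 2) := by
      refine Ex_mono (hpY S) fun y => ?_
      rw [hc]
      have h5 := up_addT (S.T (dR y)) 0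
      rw [add_zero] at h5
      have h6 : up M 0 = 0 := by unfold up; simp
      linarith
    rwa [Ex_const (hpY S)] at e4
  have e5 := uptw S
  have e6 : Ex (pY S) (fun y => up M (((S.T (d1 y) : ℕ) : ℤ)
      + mv (((S.T (dR y) : ℕ) : ℤ) - ((S.T (d0 y) : ℕ) : ℤ)) (S.T (dS y)) (S.T (d0 y))
        (S.T (d1 y)))) = Ex (pY S) (fun y => up M (vtw S y)) := rfl
  rw [e6]
  linarith [ldS0 S, log2_le]

/-- the line `l1` from `z` and the point `Pb` -/
theorem costd1 : HH (pY S) (VHY S) {.z, .Pb, .b, .tz, .l1} - HH (pY S) (VHY S) {.z, .Pb, .b, .tz}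
    ≤ m * (34 * (S.κ + 1)) := by
  have hκ := S.κ_nonneg
  refine cost_le (VHY S) _ _ VH.l1 (by decide +kernel) _ fun r hr => ?_
  simp only [Finset.mem_insert, Finset.mem_singleton, forall_eq_or_imp, forall_eq, VH_z, VH_Pb,
    VH_b, VH_tz] at hr
  have h2 := CE_clos (hpY S) G.hδ G.hδ1 G.hM G.hv G.hinj r
      (fun y => S.l (S.σ (d1 y))) (fun y => S.l (S.σ (d0 y))) (vc S) (fun y => S.T (db y))
      (fun y y' _ _ g => ⟨vc_eq S (hr y y' g).2.2.1 (hr y y' g).2.2.2, (hr y y' g).2.1,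
        (hr y y' g).1⟩)
  refine h2.trans (mul_le_mul_of_nonneg_left ?_ (Nat.cast_nonneg m))
  linarith [dnc S, log7_le]

/-- `Pb', w, z` are collinear -/
theorem costd5 : HH (pY S) (VHY S) {.Pb', .w, .b', .tw, .tz, .z}
    - HH (pY S) (VHY S) {.Pb', .w, .b', .tw, .tz} ≤ m * (80 * (S.κ + 1)) := by
  have hκ := S.κ_nonneg
  refine cost_le (VHY S) _ _ VH.z (by decide +kernel) _ fun r hr => ?_
  simp only [Finset.mem_insert, Finset.mem_singleton, forall_eq_or_imp, forall_eq, VH_Pb', VH_w,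
    VH_b', VH_tw, VH_tz] at hr
  have h2 := CE_col (hpY S) G.hδ G.hδ1 G.hM G.hx G.hv r
    (fun y => S.l (S.σ (d1 y))) (fun y => S.l (d0 y)) (fun y => S.l (S.σ (d0 y)))
    (vB S) (fun y => S.T (db' y)) (fun y => S.T (d1 y)) (fun y => S.T (db y))
    (fun y hy => (lk S hy hy).p1)
    (fun y y' _ _ g => by
      obtain ⟨g1, g2, g3, g4, g5⟩ := hr y y' g
      exact ⟨g3, g4, g5, g1, g2⟩)
  refine le_trans h2 (mul_le_mul_of_nonneg_left ?_ (Nat.cast_nonneg m))
  have e1 : Ex (pY S) (fun y => dn M (((S.T (db' y) : ℕ) : ℤ) - (((S.T (d1 y) : ℕ) : ℤ) + vB S y)))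
      = Ex (pY S) (fun y => dn M (((S.T (db' y) : ℕ) : ℤ) - vtw S y)) := rfl
  have e2 : Ex (pY S) (fun y => up M (((S.T (d1 y) : ℕ) : ℤ) + vB S y))
      = Ex (pY S) (fun y => up M (vtw S y)) := rfl
  have e3 : Ex (pY S) (fun y => up M (((S.T (db y) : ℕ) : ℤ) + mv (vB S y) (S.T (db' y))
      (S.T (d1 y)) (S.T (db y)))) = Ex (pY S) (fun y => up M (vtz S y)) := rfl
  rw [e1, e2, e3]
  linarith [ldb1 S, dnb'w S, uptw S, uptz S]

/-- the costs of the parameters -/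
theorem par {kk : ℝ} (h1 : 34 * (S.κ + 1) ≤ kk) (h2 : S.ι ≤ kk) :
    Hy.Par (pY S) (VHY S) S.eK S.eL S.eB S.eT S.eP S.eB2 (Real.log M) (Lam S) kk where
  toBase := baseH S
  kk0 := by linarith [S.κ_nonneg]
  hκ := by
    have hk : S.κ = Real.log M - (S.eB - S.eL) := rfl
    linarith [S.κ_nonneg]
  hι := h2
  c1 := by linarith [cost1 S, S.κ_nonneg]
  c2 := by linarith [cost2 S, S.κ_nonneg]
  c9 := by linarith [cost9 S, S.κ_nonneg]
  cz := by linarith [costz S, S.κ_nonneg]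
  cU := by linarith [costU S, S.κ_nonneg]

end

end Pool.Agent.Helper90.Kak
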