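import Pool.Agent.Helper90.Kak.VEq
import Pool.Agent.Helper75.KakHB

/-!
# The costs of the parameters and the collinearity costs on the top space
-/

set_option autoImplicit false

namespace Pool.Agent.Helper90.Kak

open Pool.Agent.Helper8.Kak Pool.Agent.Helper6.Kak Pool.Agent.Helper8.Hyb

variable {m M : ℕ} {G : Geo m M} (S : PSys G)

theorem one_le_ell (M : ℕ) : 1 ≤ ell M := by
  have h : (0 : ℝ) ≤ Real.log M := Real.log_natCast_nonneg M
  have h3 : (3 : ℝ) ≤ Real.log M + 3 := by linarith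
  have h4 := Real.exp_one_lt_d9
  unfold ell
  rw [Real.le_log_iff_exp_le (by linarith)]
  linarith

/-- the common error -/
theorem err_bounds : S.κ + 1 ≤ S.κ + S.ι + ell M ∧ S.ι ≤ S.κ + S.ι + ell M ∧ 0 ≤ S.κ + S.ι + ell M
    ∧ S.κ + ell M ≤ S.κ + S.ι + ell M := by
  have h1 := one_le_ell M
  have h2 := S.κ_nonneg
  have h3 := Pool.Agent.Helper75.KakHB.ι_nonneg S
  exact ⟨by linarith, by linarith, by linarith, by linarith⟩

/-- the costs of the parameters, on the top space -/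
theorem parZ {kk : ℝ} (h1 : 34 * (S.κ + 1) ≤ kk) (h2 : S.ι ≤ kk) :
    Hy.Par (pzz S) (VZ S) S.eK S.eL S.eB S.eT S.eP S.eB2 (Real.log M) (Lam S) kk where
  toBase := baseZ S
  kk0 := (parY S h1 h2).kk0
  hκ := (parY S h1 h2).hκ
  hι := (parY S h1 h2).hι
  c1 := by
    rw [HHt S _ (by decide +kernel), HHt S _ (by decide +kernel)]
    exact (parY S h1 h2).c1
  c2 := by
    rw [HHt S _ (by decide +kernel), HHt S _ (by decide +kernel)]
    exact (parY S h1 h2).c2
  c9 := by
    rw [HHt S _ (by decide +kernel), HHt S _ (by decide +kernel)]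
    exact (parY S h1 h2).c9
  cz := by
    rw [HHt S _ (by decide +kernel), HHt S _ (by decide +kernel)]
    exact (parY S h1 h2).cz
  cU := by
    rw [HHt S _ (by decide +kernel), HHt S _ (by decide +kernel)]
    exact (parY S h1 h2).cU

/-- the costs of the parameters, on the top space, with the common error -/
theorem parZ' {N : ℝ} (hN : 34 ≤ N) :
    Hy.Par (pzz S) (VZ S) S.eK S.eL S.eB S.eT S.eP S.eB2 (Real.log M) (Lam S)
      (N * (S.κ + S.ι + ell M)) := by
  obtain ⟨e1, e2, e3, _⟩ := err_bounds S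
  have h : 34 * (S.κ + S.ι + ell M) ≤ N * (S.κ + S.ι + ell M) := mul_le_mul_of_nonneg_right hN e3
  exact parZ S (by linarith) (by linarith)

/-- the costs of the parameters, on the first glued space, with the common error -/
theorem parW {kk : ℝ} (h1 : 34 * (S.κ + 1) ≤ kk) (h2 : S.ι ≤ kk) :
    Hy.Par (pw S) (VW S) S.eK S.eL S.eB S.eT S.eP S.eB2 (Real.log M) (Lam S) kk where
  toBase := baseW S
  kk0 := (parY S h1 h2).kk0
  hκ := (parY S h1 h2).hκ
  hι := (parY S h1 h2).hι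
  c1 := by
    rw [HHw S _ (by decide +kernel), HHw S _ (by decide +kernel)]
    exact (parY S h1 h2).c1
  c2 := by
    rw [HHw S _ (by decide +kernel), HHw S _ (by decide +kernel)]
    exact (parY S h1 h2).c2
  c9 := by
    rw [HHw S _ (by decide +kernel), HHw S _ (by decide +kernel)]
    exact (parY S h1 h2).c9
  cz := by
    rw [HHw S _ (by decide +kernel), HHw S _ (by decide +kernel)]
    exact (parY S h1 h2).cz
  cU := by
    rw [HHw S _ (by decide +kernel), HHw S _ (by decide +kernel)]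
    exact (parY S h1 h2).cU

/-- `PS, PR, w` are collinear, on the top space -/
theorem cost_c5 (m : ℕ) : ∃ N : ℝ, 0 ≤ N ∧ ∀ (M : ℕ) (G : Geo m M) (S : PSys G),
    HH (pzz S) (VZ S) {.PS, .PR, .S, .R, .tw, .w} - HH (pzz S) (VZ S) {.PS, .PR, .S, .R, .tw} ≤
      N * (S.κ + S.ι + ell M) := by
  refine ⟨m * 50, by positivity, fun M G S => ?_⟩
  obtain ⟨e1, e2, e3, _⟩ := err_bounds S
  rw [HHt S _ (by decide +kernel), HHt S _ (by decide +kernel), ← VHY_eq]
  have h := cost5 S
  have h2 : (m : ℝ) * (50 * (S.κ + 1)) ≤ m * 50 * (S.κ + S.ι + ell M) := by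
    rw [mul_assoc]
    exact mul_le_mul_of_nonneg_left (by linarith) (Nat.cast_nonneg m)
  linarith

theorem cost_d1 (m : ℕ) : ∃ N : ℝ, 0 ≤ N ∧ ∀ (M : ℕ) (G : Geo m M) (S : PSys G),
    HH (pzz S) (VZ S) {.z, .Pb, .b, .tz, .l1} - HH (pzz S) (VZ S) {.z, .Pb, .b, .tz} ≤
      N * (S.κ + S.ι + ell M) := by
  refine ⟨m * 34, by positivity, fun M G S => ?_⟩
  obtain ⟨e1, e2, e3, _⟩ := err_bounds S
  rw [HHt S _ (by decide +kernel), HHt S _ (by decide +kernel), ← VHY_eq]
  have h := costd1 S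
  have h2 : (m : ℝ) * (34 * (S.κ + 1)) ≤ m * 34 * (S.κ + S.ι + ell M) := by
    rw [mul_assoc]
    exact mul_le_mul_of_nonneg_left (by linarith) (Nat.cast_nonneg m)
  linarith

/-- `Pb', w, z` are collinear, on the top space -/
theorem cost_d5 (m : ℕ) : ∃ N : ℝ, 0 ≤ N ∧ ∀ (M : ℕ) (G : Geo m M) (S : PSys G),
    HH (pzz S) (VZ S) {.Pb', .w, .b', .tw, .tz, .z}
      - HH (pzz S) (VZ S) {.Pb', .w, .b', .tw, .tz} ≤ N * (S.κ + S.ι + ell M) := by
  refine ⟨m * 80, by positivity, fun M G S => ?_⟩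
  obtain ⟨e1, e2, e3, _⟩ := err_bounds S
  rw [HHt S _ (by decide +kernel), HHt S _ (by decide +kernel), ← VHY_eq]
  have h := costd5 S
  have h2 : (m : ℝ) * (80 * (S.κ + 1)) ≤ m * 80 * (S.κ + S.ι + ell M) := by
    rw [mul_assoc]
    exact mul_le_mul_of_nonneg_left (by linarith) (Nat.cast_nonneg m)
  linarith

end Pool.Agent.Helper90.Kak
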